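import Pool.Agent.Lib.SM.C.HasseU
import Pool.Agent.Lib.SM.C.LocAd

set_option autoImplicit false

/-!
HEIGHTS, block R (reciprocity): the degree `Gal(Ω / k(t)) → Z / 2^e`.

`IsDeg e d`: `s x = x ^ (q ^ d s)` for all `x` with `x ^ (q ^ (2 ^ e)) = x`.
-/

namespace Pool.Agent.Ht

open Pool.Agent.SmithC Pool.Agent.Lib.SmD Pool.Agent.BSDFF

variable {k Ω : Type} [Field k] [Field Ω] [Algebra (RatFunc k) Ω]

/-- `d` is the degree modulo `2 ^ e`: `s` acts on the constant field of degree `2 ^ e` as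
`x ↦ x ^ (q ^ d s)`. -/
def IsDeg (e : ℕ) (d : GG k Ω → ℕ) : Prop :=
  ∀ s : GG k Ω, ∀ x : Ω, x ^ (Nat.card k ^ (2 ^ e)) = x → s x = x ^ (Nat.card k ^ d s)

/-- exponents of Frobenius powers on a generator of the constant field of degree `n` -/
theorem frob_exp [Finite k] {n : ℕ} (hn : 0 < n) {ζ : Ω}
    (hζ : IsPrimitiveRoot ζ (Nat.card k ^ n - 1)) (hQ : 2 ≤ Nat.card k ^ n - 1)
    (hq3 : 3 ≤ Nat.card k) {a b : ℕ}
    (h : ζ ^ (Nat.card k ^ a) = ζ ^ (Nat.card k ^ b)) : a ≡ b [MOD n] := by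
  have hζn : ζ ^ (Nat.card k ^ n) = ζ := prim_level hζ.pow_eq_one hQ
  have hred : ∀ j : ℕ, ζ ^ (Nat.card k ^ j) = ζ ^ (Nat.card k ^ (j % n)) := by
    intro j
    have h1 : j = j % n + n * (j / n) := (Nat.mod_add_div j n).symm
    have h3 : ∀ m : ℕ, ζ ^ (Nat.card k ^ (n * m)) = ζ := by
      intro m
      induction m with
      | zero => simp
      | succ m ih =>
        rw [Nat.mul_succ, pow_add, pow_mul, ih, hζn]
    conv_lhs => rw [h1, add_comm, pow_add, pow_mul, h3]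
  rw [hred a, hred b] at h
  have hlt : ∀ j : ℕ, Nat.card k ^ (j % n) < Nat.card k ^ n - 1 := by
    intro j
    have h1 : j % n < n := Nat.mod_lt j hn
    obtain ⟨m, rfl⟩ : ∃ m, n = m + 1 := ⟨n - 1, by omega⟩
    have h3 : Nat.card k ^ (j % (m + 1)) ≤ Nat.card k ^ m :=
      Nat.pow_le_pow_right (by omega) (by omega)
    have h4 : 1 ≤ Nat.card k ^ m := Nat.one_le_pow _ _ (by omega)
    have h5 : Nat.card k ^ m * 3 ≤ Nat.card k ^ (m + 1) := by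
      rw [pow_succ]
      exact Nat.mul_le_mul_left _ hq3
    omega
  have h1 := hζ.pow_inj (hlt a) (hlt b) h
  have h3 := Nat.pow_right_injective (by omega : 2 ≤ Nat.card k) h1
  exact h3

theorem three_le_card [Finite k] (h2 : (2 : k) ≠ 0) : 3 ≤ Nat.card k := by
  classical
  have hq1 : 1 < Nat.card k := Finite.one_lt_card
  by_contra hcon
  have h1 : Nat.card k = 2 := by omega
  have hf : Fintype k := Fintype.ofFinite k
  apply h2
  have h3 : ((Fintype.card k : ℕ) : k) = 0 := Nat.cast_card_eq_zero k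
  rw [← Nat.card_eq_fintype_card, h1] at h3
  exact_mod_cast h3

section

variable [Finite k] [IsSepClosure (RatFunc k) Ω] (h2 : (2 : k) ≠ 0)

include h2

theorem exists_gen (e : ℕ) : ∃ ζ : Ω, ζ ^ (Nat.card k ^ (2 ^ e)) = ζ ∧ ∀ a b : ℕ,
    ζ ^ (Nat.card k ^ a) = ζ ^ (Nat.card k ^ b) → a ≡ b [MOD 2 ^ e] := by
  have hn : 0 < 2 ^ e := by positivity
  obtain ⟨ζ, hζ, hQ⟩ := exists_prim (k := k) (Ω := Ω) h2 hn
  exact ⟨ζ, prim_level hζ.pow_eq_one hQ, fun a b h =>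
    frob_exp hn hζ hQ (three_le_card h2) h⟩

theorem IsDeg.unique {e : ℕ} {d d' : GG k Ω → ℕ} (hd : IsDeg e d) (hd' : IsDeg e d')
    (s : GG k Ω) : d s ≡ d' s [MOD 2 ^ e] := by
  obtain ⟨ζ, h1, h3⟩ := exists_gen (k := k) (Ω := Ω) h2 e
  exact h3 _ _ ((hd s ζ h1).symm.trans (hd' s ζ h1))

omit h2 [Finite k] [IsSepClosure (RatFunc k) Ω] in
theorem IsDeg.mono {e e' : ℕ} (hee : e ≤ e') {d : GG k Ω → ℕ} (hd : IsDeg e' d) : IsDeg e d := by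
  intro s x hx
  apply hd s x
  obtain ⟨m, rfl⟩ : ∃ m, e' = e + m := ⟨e' - e, by omega⟩
  rw [pow_add 2]
  exact pow_pow_mul x _ _ _ hx

theorem IsDeg.mul {e : ℕ} {d : GG k Ω → ℕ} (hd : IsDeg e d) (s t : GG k Ω) :
    d (s * t) ≡ d s + d t [MOD 2 ^ e] := by
  obtain ⟨ζ, h1, h3⟩ := exists_gen (k := k) (Ω := Ω) h2 e
  apply h3
  rw [← hd (s * t) ζ h1, AlgEquiv.mul_apply, hd t ζ h1, map_pow, hd s ζ h1, ← pow_mul, ← pow_add]

theorem IsDeg.HH {e : ℕ} {d : GG k Ω → ℕ} (hd : IsDeg e d) {s : GG k Ω}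
    (hs : s ∈ HH k Ω) : d s ≡ 0 [MOD 2 ^ e] := by
  obtain ⟨ζ, h1, h3⟩ := exists_gen (k := k) (Ω := Ω) h2 e
  apply h3
  rw [← hd s ζ h1, hs ζ ⟨2 ^ e, by positivity, h1⟩, pow_zero, pow_one]

/-- the degree is constant on the cosets of the open subgroup `Hn (2 ^ e)` -/
theorem IsDeg.Hn {e : ℕ} {d : GG k Ω → ℕ} (hd : IsDeg e d) {s n : GG k Ω}
    (hn : n ∈ Hn k Ω (2 ^ e)) : d (s * n) ≡ d s [MOD 2 ^ e] := by
  obtain ⟨ζ, h1, h3⟩ := exists_gen (k := k) (Ω := Ω) h2 e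
  apply h3
  rw [← hd (s * n) ζ h1, AlgEquiv.mul_apply, hn ζ h1, hd s ζ h1]

/-- existence of an element acting as the Frobenius on the constants -/
theorem exists_sigma : ∃ σ : GG k Ω, ∀ x : Ω, IsCst k x → σ x = x ^ Nat.card k := by
  have h0 : IsCst k (0 : Ω) := ⟨1, one_pos, zero_pow (pow_pos Nat.card_pos 1).ne'⟩
  obtain ⟨v, j, d, -, L⟩ := locData (k := k) (Ω := Ω) h2 1 0 h0
  have hz : (0 : Ω) ^ (Nat.card k ^ j) = 0 := zero_pow (pow_pos Nat.card_pos j).ne'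
  rw [hz] at L
  have hd : d = 1 := by
    by_contra hne
    have h1 := L.fpos
    exact L.mini 1 one_pos (by omega) (zero_pow (pow_pos Nat.card_pos 1).ne')
  refine ⟨ph Ω v, fun x hx => ?_⟩
  rw [L.F_act x hx, hd, pow_one]

theorem exists_isDeg (e : ℕ) : ∃ d : GG k Ω → ℕ, IsDeg e d := by
  obtain ⟨σ, hσ⟩ := exists_sigma (k := k) (Ω := Ω) h2
  have hn : 0 < 2 ^ e := by positivity
  have key : ∀ s : GG k Ω, ∃ j : ℕ, ∀ x : Ω, x ^ (Nat.card k ^ (2 ^ e)) = x →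
      s x = x ^ (Nat.card k ^ j) := by
    intro s
    obtain ⟨i, hi⟩ := frob_gen h2 hσ hn s
    have hn' : ((2 ^ e : ℕ) : ℤ) ≠ 0 := by exact_mod_cast hn.ne'
    obtain ⟨j, hj⟩ : ∃ j : ℕ, (j : ℤ) = i % ((2 ^ e : ℕ) : ℤ) :=
      ⟨(i % ((2 ^ e : ℕ) : ℤ)).toNat, Int.toNat_of_nonneg (Int.emod_nonneg i hn')⟩
    refine ⟨j, fun x hx => ?_⟩
    have h1 : s x = (σ ^ i) x := by
      have h3 := hi x hx
      have h4 : (σ ^ i) (((σ ^ i)⁻¹ * s) x) = (σ ^ i) x := by rw [h3]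
      rw [← h4, AlgEquiv.mul_apply]
      exact ((σ ^ i).apply_symm_apply (s x)).symm
    have h3 : σ ^ i = σ ^ j * (σ ^ (2 ^ e)) ^ (i / ((2 ^ e : ℕ) : ℤ)) := by
      rw [← zpow_natCast σ j, ← zpow_natCast σ (2 ^ e), ← zpow_mul, ← zpow_add, hj,
        Int.emod_add_mul_ediv]
    have h4 : (σ ^ (2 ^ e)) ^ (i / ((2 ^ e : ℕ) : ℤ)) ∈ Pool.Agent.SmithC.Hn k Ω (2 ^ e) :=
      (Pool.Agent.SmithC.Hn k Ω (2 ^ e)).zpow_mem (frob_pow_mem hσ hn) _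
    rw [h1, h3, AlgEquiv.mul_apply, h4 x hx]
    exact Pool.Agent.SmithC.frob_pow hσ j ⟨2 ^ e, hn, hx⟩
  choose d hd using key
  exact ⟨d, hd⟩

end

/-- exponents may be changed modulo the order -/
theorem pow_modEq {M : ℕ} {u : Ωˣ} (hu : u ^ M = 1) {a b : ℕ} (h : a ≡ b [MOD M]) :
    u ^ a = u ^ b := by
  rw [pow_eq_pow_mod a hu, pow_eq_pow_mod b hu, h]

end Pool.Agent.Ht
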