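import Pool.Agent.Lib.Ht.R.Loc
import Pool.Agent.Lib.Sm.P.Mu
import Pool.Agent.Lib.SmD.Unr
import Pool.Agent.Lib.SmF.Recip

set_option autoImplicit false

/-!
HEIGHTS, block R: Kummer symbols of elements of `k(t)` at the tame generators and the product
formula for them.

* `kv e f v = kumU (2^e) f (sg v)`; `toM : Ωˣ → MuT Ω`;
* `IsNm nm`, `IsPDeg deg`: the normalisations of the tame generators and the degrees of the places;
* `prod_kum`: `∑ᶠ v, deg v • nm v (toM (kv e f v)) = 0`.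
-/

namespace Pool.Agent.Ht

open Polynomial Pool.Agent.SmithC Pool.Agent.Lib.SmD Pool.Agent.BSDFF Pool.Agent.SmP

variable {k Ω : Type} [Field k] [Field Ω] [Algebra (RatFunc k) Ω]

section toM

omit [Algebra (RatFunc k) Ω] [Field k]

open Classical in
/-- a unit of order a power of `2` as an element of `MuT Ω` (`0` for the other units) -/
noncomputable def toM (u : Ωˣ) : MuT Ω :=
  if h : ∃ j : ℕ, u ^ (2 ^ j) = 1 then
    ⟨Additive.ofMul u, h.choose, Additive.toMul.injective h.choose_spec⟩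
  else 0

theorem toM_val {u : Ωˣ} {j : ℕ} (h : u ^ (2 ^ j) = 1) :
    ((toM u : MuT Ω) : Additive Ωˣ) = Additive.ofMul u := by
  unfold toM
  rw [dif_pos ⟨j, h⟩]

theorem toM_el {u : Ωˣ} {j : ℕ} (h : u ^ (2 ^ j) = 1) : (toM u).el = u := by
  unfold MuT.el
  rw [toM_val h]
  rfl

theorem toM_one : toM (1 : Ωˣ) = 0 :=
  MuT.el_inj (by rw [toM_el (j := 0) (one_pow _), MuT.el_zero, Units.val_one])

theorem toM_mul {u v : Ωˣ} {i j : ℕ} (hu : u ^ (2 ^ i) = 1) (hv : v ^ (2 ^ j) = 1) :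
    toM (u * v) = toM u + toM v := by
  apply MuT.el_inj
  have h : (u * v) ^ (2 ^ (i + j)) = 1 := by
    rw [mul_pow, pow_add, pow_mul, hu, one_pow, one_mul, mul_comm, pow_mul, hv, one_pow]
  rw [toM_el h, MuT.el_add, toM_el hu, toM_el hv, Units.val_mul]

theorem toM_inv {u : Ωˣ} {i : ℕ} (hu : u ^ (2 ^ i) = 1) : toM u⁻¹ = -toM u := by
  rw [eq_neg_iff_add_eq_zero, ← toM_mul (i := i) (j := i) (by rw [inv_pow, hu, inv_one]) hu,
    inv_mul_cancel, toM_one]

theorem toM_pow {u : Ωˣ} {i : ℕ} (hu : u ^ (2 ^ i) = 1) (n : ℕ) : toM (u ^ n) = n • toM u := by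
  apply MuT.el_inj
  have h : (u ^ n) ^ (2 ^ i) = 1 := by rw [← pow_mul, mul_comm, pow_mul, hu, one_pow]
  rw [toM_el h, MuT.el_nsmul, toM_el hu, Units.val_pow_eq_pow_val]

theorem toM_eq_zero {u : Ωˣ} {i : ℕ} (hu : u ^ (2 ^ i) = 1) : toM u = 0 ↔ u = 1 := by
  constructor
  · intro h
    apply Units.ext
    rw [← toM_el hu, h, MuT.el_zero, Units.val_one]
  · rintro rfl
    exact toM_one

theorem toM_inj {u v : Ωˣ} {i j : ℕ} (hu : u ^ (2 ^ i) = 1) (hv : v ^ (2 ^ j) = 1)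
    (h : toM u = toM v) : u = v := by
  apply Units.ext
  rw [← toM_el hu, ← toM_el hv, h]

/-- an element of `MuT Ω` as a unit -/
def ofM (m : MuT Ω) : Ωˣ := Additive.toMul (m : Additive Ωˣ)

theorem ofM_el (m : MuT Ω) : (ofM m : Ω) = m.el := rfl

theorem toM_ofM (m : MuT Ω) : toM (ofM m) = m := by
  obtain ⟨j, hj⟩ := m.2
  have h : (ofM m) ^ (2 ^ j) = 1 := congrArg Additive.toMul hj
  exact MuT.el_inj (toM_el h)

theorem ofM_pow {m : MuT Ω} {j : ℕ} (h : (2 : ℕ) ^ j • m = 0) : ofM m ^ (2 ^ j) = 1 := by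
  apply Units.ext
  rw [Units.val_pow_eq_pow_val, ofM_el, ← MuT.el_nsmul, h, MuT.el_zero, Units.val_one]

end toM

theorem ofM_smul (s : GG k Ω) (m : MuT Ω) : ofM (s • m) = s • ofM m := rfl

theorem ofM_add (m n : MuT Ω) : ofM (m + n) = ofM m * ofM n := rfl

theorem ofM_sub (m n : MuT Ω) : ofM (m - n) = ofM m * (ofM n)⁻¹ := by
  rw [eq_mul_inv_iff_mul_eq, ← ofM_add, sub_add_cancel]

theorem ofM_zero : ofM (0 : MuT Ω) = 1 := rfl

theorem ofM_nsmul (n : ℕ) (m : MuT Ω) : ofM (n • m) = ofM m ^ n := by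
  apply Units.ext
  rw [Units.val_pow_eq_pow_val, ofM_el, ofM_el, MuT.el_nsmul]

/-- the normalisation of the tame generators -/
def IsNm (nm : Place k (RatFunc k) → MuT Ω →+ MuT Ω) : Prop :=
  ∀ (v : Place k (RatFunc k)) (π : v.ring), Irreducible π → ∀ (m : ℕ) (u : MuT Ω),
    u.el = ((kumU (2 ^ m) (algebraMap (RatFunc k) Ω (π : RatFunc k)) (sg Ω v) : Ωˣ) : Ω) →
    nm v u = zet Ω m

variable (Ω) in
/-- the degrees of the places -/
def IsPDeg (deg : Place k (RatFunc k) → ℕ) : Prop :=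
  ∀ (v : Place k (RatFunc k)) (x : Ω), Pool.Agent.SmithC.IsCst k x →
    ph Ω v x = x ^ (Nat.card k ^ deg v)

section

variable [Finite k] [IsSepClosure (RatFunc k) Ω] (h2 : (2 : k) ≠ 0)

include h2

theorem kumU_mulf (e : ℕ) {f g : Ω} (hf : f ≠ 0) (hg : g ≠ 0) {h : GG k Ω} (hh : h ∈ HH k Ω) :
    kumU (2 ^ e) (f * g) h = kumU (2 ^ e) f h * kumU (2 ^ e) g h := by
  have hr : ((rtU (2 ^ e) f * rtU (2 ^ e) g : Ωˣ) : Ω) ^ (2 ^ e) = f * g := by
    rw [Units.val_mul, mul_pow, rtU_pow (k := k) h2 e hf, rtU_pow (k := k) h2 e hg]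
  rw [kumU_eq h2 e (mul_ne_zero hf hg) hh hr]
  unfold kumU
  rw [smul_mul', mul_inv]
  exact mul_mul_mul_comm _ _ _ _

theorem kumU_onef (e : ℕ) {h : GG k Ω} (hh : h ∈ HH k Ω) : kumU (2 ^ e) (1 : Ω) h = 1 := by
  rw [kumU_eq h2 e one_ne_zero hh (r := 1) (by rw [Units.val_one, one_pow]), smul_one, inv_one,
    mul_one]

theorem kumU_invf (e : ℕ) {f : Ω} (hf : f ≠ 0) {h : GG k Ω} (hh : h ∈ HH k Ω) :
    kumU (2 ^ e) f⁻¹ h = (kumU (2 ^ e) f h)⁻¹ := by
  rw [eq_inv_iff_mul_eq_one, ← kumU_mulf h2 e (inv_ne_zero hf) hf hh, inv_mul_cancel₀ hf,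
    kumU_onef h2 e hh]

theorem kumU_powf (e : ℕ) {f : Ω} (hf : f ≠ 0) {h : GG k Ω} (hh : h ∈ HH k Ω) (n : ℕ) :
    kumU (2 ^ e) (f ^ n) h = kumU (2 ^ e) f h ^ n := by
  induction n with
  | zero => rw [pow_zero, pow_zero, kumU_onef h2 e hh]
  | succ n ih => rw [pow_succ, pow_succ, kumU_mulf h2 e (pow_ne_zero n hf) hf hh, ih]

theorem sg_HH (v : Place k (RatFunc k)) : sg Ω v ∈ HH k Ω := by
  have hsc : IsSepClosed Ω := IsSepClosure.sep_closed (RatFunc k)
  have hgal : IsGalois (RatFunc k) Ω := IsSepClosure.isGalois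
  have hfin : Finite (IsLocalRing.ResidueField (below (RatFunc k) (ab Ω v))) :=
    finite_residue_below v
  have h1 : sg Ω v ∈ dv Ω v ⊓ HH k Ω := by
    rw [locAd_iner]
    exact sg_iner h2 v
  exact h1.2

omit h2 [Finite k] [IsSepClosure (RatFunc k) Ω] in
variable (Ω) in
/-- the Kummer symbol of `f ∈ k(t)` at the tame generator -/
noncomputable def kv (e : ℕ) (f : RatFunc k) (v : Place k (RatFunc k)) : Ωˣ :=
  kumU (2 ^ e) (algebraMap (RatFunc k) Ω f) (sg Ω v)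

omit h2 [Finite k] [IsSepClosure (RatFunc k) Ω] in
theorem map_ne {f : RatFunc k} (hf : f ≠ 0) : algebraMap (RatFunc k) Ω f ≠ 0 := by
  rwa [Ne, map_eq_zero]

theorem kv_pow (e : ℕ) {f : RatFunc k} (hf : f ≠ 0) (v : Place k (RatFunc k)) :
    kv Ω e f v ^ (2 ^ e) = 1 := kumU_pow h2 e (map_ne hf) ((sg Ω v).commutes _)

theorem kv_mul (e : ℕ) {f g : RatFunc k} (hf : f ≠ 0) (hg : g ≠ 0) (v : Place k (RatFunc k)) :
    kv Ω e (f * g) v = kv Ω e f v * kv Ω e g v := by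
  unfold kv
  rw [map_mul, kumU_mulf h2 e (map_ne hf) (map_ne hg) (sg_HH h2 v)]

theorem kv_inv (e : ℕ) {f : RatFunc k} (hf : f ≠ 0) (v : Place k (RatFunc k)) :
    kv Ω e f⁻¹ v = (kv Ω e f v)⁻¹ := by
  unfold kv
  rw [map_inv₀, kumU_invf h2 e (map_ne hf) (sg_HH h2 v)]

theorem kv_powf (e : ℕ) {f : RatFunc k} (hf : f ≠ 0) (v : Place k (RatFunc k)) (n : ℕ) :
    kv Ω e (f ^ n) v = kv Ω e f v ^ n := by
  unfold kv
  rw [map_pow, kumU_powf h2 e (map_ne hf) (sg_HH h2 v)]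

theorem kv_unit (e : ℕ) {f : RatFunc k} (v : Place k (RatFunc k))
    (h : (ab Ω v).valuation (algebraMap (RatFunc k) Ω f) = 1) : kv Ω e f v = 1 := by
  have hsc : IsSepClosed Ω := IsSepClosure.sep_closed (RatFunc k)
  exact locAd_kum h2 e (val_two h2 v) (sg_iner h2 v) h ((sg Ω v).commutes _)

theorem kv_fin (e : ℕ) {f : RatFunc k} (hf : f ≠ 0) : {v | kv Ω e f v ≠ 1}.Finite :=
  (finite_nonunit_base (Om := Ω) hf).subset fun v hv h => hv (kv_unit h2 e v h)

theorem kv_other (e : ℕ) {P Q : k[X]} (hP : Irreducible P) (hQ : Irreducible Q) (hPm : P.Monic)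
    (hQm : Q.Monic) (hne : P ≠ Q) :
    kv Ω e (algebraMap k[X] (RatFunc k) Q) (placeOf P hP) = 1 :=
  kv_unit h2 e _ (val_poly_eq_one hP (Pool.Agent.SmF.not_dvd_of_ne hP hPm hQ hQm hne))

/-- exponents of the Frobenius on the constants are determined -/
theorem deg_unique {a b : ℕ}
    (h : ∀ x : Ω, Pool.Agent.SmithC.IsCst k x → x ^ (Nat.card k ^ a) = x ^ (Nat.card k ^ b)) :
    a = b := by
  obtain ⟨e, he⟩ : ∃ e : ℕ, a + b < 2 ^ e := ⟨a + b, Nat.lt_two_pow_self⟩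
  obtain ⟨ζ, h1, h3⟩ := exists_gen (k := k) (Ω := Ω) h2 e
  have h4 := h3 a b (h ζ ⟨2 ^ e, by positivity, h1⟩)
  exact Nat.ModEq.eq_of_lt_of_lt h4 (by omega) (by omega)

theorem deg_resCard {deg : Place k (RatFunc k) → ℕ} (hdeg : IsPDeg Ω deg)
    (v : Place k (RatFunc k)) {n : ℕ}
    (h : resCard (below (RatFunc k) (ab Ω v)) = Nat.card k ^ n) : deg v = n := by
  have hsc : IsSepClosed Ω := IsSepClosure.sep_closed (RatFunc k)
  have hgal : IsGalois (RatFunc k) Ω := IsSepClosure.isGalois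
  obtain ⟨p, s, hp, -, hO, hs, hq⟩ := locRoot_char k Ω
  have hpF : Fact p.Prime := ⟨hp⟩
  refine deg_unique (Ω := Ω) h2 fun x hx => ?_
  rw [← hdeg v x hx, ← h]
  exact (ph_frob (Om := Ω) v).cst (hx.conv hs hq)

theorem deg_placeOf {deg : Place k (RatFunc k) → ℕ} (hdeg : IsPDeg Ω deg) {P : k[X]}
    (hP : Irreducible P) : deg (placeOf P hP) = P.natDegree :=
  deg_resCard h2 hdeg _ (locRoot_resCard hP)

omit h2 [IsSepClosure (RatFunc k) Ω] in
theorem resCard_infty : resCard (below (RatFunc k) (ab Ω (placeInfty k))) = Nat.card k ^ 1 := by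
  rw [below_ab, pow_one]
  unfold resCard
  exact (Nat.card_congr (Equiv.ofBijective (placeInfty k).constMap
    ⟨RingHom.injective _, constMap_infty_surjective⟩)).symm

theorem deg_infty {deg : Place k (RatFunc k) → ℕ} (hdeg : IsPDeg Ω deg) :
    deg (placeInfty k) = 1 := deg_resCard h2 hdeg _ resCard_infty

theorem nm_kv {nm : Place k (RatFunc k) → MuT Ω →+ MuT Ω} (hnm : IsNm nm) (e : ℕ)
    (v : Place k (RatFunc k)) {π : v.ring} (hπ : Irreducible π) :
    nm v (toM (kv Ω e (π : RatFunc k) v)) = zet Ω e := by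
  have hL := locHyp_ab (Om := Ω) h2 v hπ
  exact hnm v π hπ e _ (toM_el (kv_pow h2 e hL.pi_ne v))

/-- product formula for the Kummer symbols -/
theorem prod_kum {nm : Place k (RatFunc k) → MuT Ω →+ MuT Ω} (hnm : IsNm nm)
    {deg : Place k (RatFunc k) → ℕ} (hdeg : IsPDeg Ω deg) (e : ℕ) :
    ∀ f : RatFunc k, f ≠ 0 → ∑ᶠ v, deg v • nm v (toM (kv Ω e f v)) = 0 := by
  classical
  have hfin : ∀ f : RatFunc k, f ≠ 0 →
      (Function.support fun v => deg v • nm v (toM (kv Ω e f v))).Finite := by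
    intro f hf
    refine (kv_fin (Ω := Ω) h2 e hf).subset fun v hv h => hv ?_
    change deg v • nm v (toM (kv Ω e f v)) = 0
    rw [h, toM_one, map_zero, smul_zero]
  refine Pool.Agent.SmF.ratFunc_ind ?_ ?_ ?_ ?_
  · intro f g hf hg h1 h3
    have e1 : ∀ v, deg v • nm v (toM (kv Ω e (f * g) v))
        = deg v • nm v (toM (kv Ω e f v)) + deg v • nm v (toM (kv Ω e g v)) := fun v => by
      rw [kv_mul h2 e hf hg, toM_mul (kv_pow h2 e hf v) (kv_pow h2 e hg v), map_add, nsmul_add]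
    rw [finsum_congr e1, finsum_add_distrib (hfin f hf) (hfin g hg), h1, h3, add_zero]
  · intro f hf h1
    have e1 : ∀ v, deg v • nm v (toM (kv Ω e f⁻¹ v))
        = -(deg v • nm v (toM (kv Ω e f v))) := fun v => by
      rw [kv_inv h2 e hf, toM_inv (kv_pow h2 e hf v), map_neg, neg_nsmul]
    rw [finsum_congr e1, finsum_neg_distrib, h1, neg_zero]
  · intro c hc
    have e1 : ∀ v, deg v • nm v (toM (kv Ω e (algebraMap k (RatFunc k) c) v)) = 0 := fun v => by
      rw [kv_unit h2 e v (val_const v hc), toM_one, map_zero, smul_zero]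
    rw [finsum_congr e1, finsum_zero]
  · intro P hPm hP
    have hP0 : algebraMap k[X] (RatFunc k) P ≠ 0 := by simpa using hP.ne_zero
    have hne : placeOf P hP ≠ placeInfty k := (Pool.Agent.SmF.placeInfty_ne hP).symm
    have hsub : (Function.support fun v => deg v •
        nm v (toM (kv Ω e (algebraMap k[X] (RatFunc k) P) v))) ⊆
        (({placeOf P hP, placeInfty k} : Finset (Place k (RatFunc k))) :
          Set (Place k (RatFunc k))) := by
      intro v hv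
      rw [Finset.coe_insert, Finset.coe_singleton]
      rcases Pool.Agent.BSDP.R.place_cases v with rfl | ⟨Q, hQ, hmQ, rfl⟩
      · exact Or.inr rfl
      · left
        by_contra hcon
        apply hv
        have h3 : Q ≠ P := by
          rintro rfl
          exact hcon rfl
        change deg _ • nm _ (toM _) = 0
        rw [kv_other h2 e hQ hP hmQ hPm h3, toM_one, map_zero, smul_zero]
    rw [finsum_eq_sum_of_support_subset _ hsub, Finset.sum_pair hne]
    -- the place `P`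
    have h1 : nm (placeOf P hP) (toM (kv Ω e (algebraMap k[X] (RatFunc k) P) (placeOf P hP)))
        = zet Ω e := nm_kv h2 hnm e (placeOf P hP) (Pool.Agent.SmF.unif_placeOf hP)
    -- infinity
    have hX : (RatFunc.X : RatFunc k) ≠ 0 := RatFunc.X_ne_zero
    have h3 : nm (placeInfty k) (toM (kv Ω e (RatFunc.X : RatFunc k)⁻¹ (placeInfty k)))
        = zet Ω e := nm_kv h2 hnm e (placeInfty k) Pool.Agent.SmF.unif_infty
    have h4 : nm (placeInfty k) (toM (kv Ω e (RatFunc.X : RatFunc k) (placeInfty k)))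
        = -zet Ω e := by
      rw [kv_inv h2 e hX, toM_inv (kv_pow h2 e hX _), map_neg] at h3
      rw [← h3, neg_neg]
    obtain ⟨u, hu, -, h5⟩ := Pool.Agent.SmF.monic_infty hPm
    have hu1 := Pool.Agent.SmF.unit_mem hu
    have h6 : (ab Ω (placeInfty k)).valuation (algebraMap (RatFunc k) Ω (u : RatFunc k)) = 1 := by
      refine val_unit_below ?_ ?_ hu1.1
      · rw [below_ab]; exact u.2
      · rw [below_ab]; exact hu1.2
    rw [h1, h5, kv_mul h2 e hu1.1 (pow_ne_zero _ hX), kv_unit h2 e _ h6, one_mul,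
      kv_powf h2 e hX, toM_pow (kv_pow h2 e hX _), map_nsmul, h4, deg_placeOf h2 hdeg hP,
      deg_infty h2 hdeg, one_smul, neg_nsmul, add_neg_cancel]

end

end Pool.Agent.Ht
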