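import Pool.Agent.Lib.Ht.R.Rec
import Pool.Agent.Lib.SmH.Link.Main

set_option autoImplicit false

/-!
HEIGHTS, block R: `RecDeg`, `IsDeg`, `DegTF` and the product formula for every system over
`Gal(Ω / k(t))` with the decomposition groups `dv`, the tame generators `sg` and coefficients `MuT Ω`.
-/

namespace Pool.Agent.Ht

open Pool.Agent.SmithC Pool.Agent.SmD Pool.Agent.Lib.SmD Pool.Agent.BSDFF Pool.Agent.SmP

variable {k Ω : Type} [Field k] [Field Ω] [Algebra (RatFunc k) Ω] [Finite k]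
  [IsSepClosure (RatFunc k) Ω]

/-- a compatible system of degree maps -/
theorem exists_dg (h2 : (2 : k) ≠ 0) : ∃ dg : ℕ → GG k Ω → ℕ,
    Pool.Agent.SmH.IsDeg dg ∧ ∀ m, IsDeg m (dg m) := by
  choose d hd using fun e => exists_isDeg (k := k) (Ω := Ω) h2 e
  exact ⟨d, ⟨fun m s t => (hd m).mul h2 s t, fun m s =>
    ((hd m).unique h2 ((hd (m + 1)).mono (Nat.le_succ m)) s).symm⟩, hd⟩

variable {V V1 : Type*} [AddCommGroup V] [DistribMulAction (GG k Ω) V] [AddCommGroup V1]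
  [Module (ZMod 2) V1]

/-- K1 for a system -/
theorem prod_sys (h2 : (2 : k) ≠ 0)
    (S : Pool.Agent.SmJ.Sys (GG k Ω) V V1 (Place k (RatFunc k)))
    (hNN : S.NN = NN (RatFunc k) Ω) (hsg : ∀ v, S.sg v = sg Ω v)
    {nm : Place k (RatFunc k) → MuT Ω →+ MuT Ω} (hnm : IsNm nm)
    {deg : Place k (RatFunc k) → ℕ} (hdeg : IsPDeg Ω deg) :
    ∀ h : GG k Ω → MuT Ω, S.TF h → (∀ s t, h (s * t) = h s + s • h t) →
      ∑ᶠ v, deg v • nm v (h (S.sg v)) = 0 := by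
  intro h htf hc
  have e1 : ∀ v, deg v • nm v (h (S.sg v)) = deg v • nm v (h (sg Ω v)) := fun v => by rw [hsg v]
  rw [finsum_congr e1]
  refine prod_formula h2 hnm hdeg h ?_ hc
  obtain ⟨N, hN, h1⟩ := htf
  exact ⟨N, hNN ▸ hN, h1⟩

/-- the degree is `2`-finite -/
theorem degTF_sys (h2 : (2 : k) ≠ 0)
    (S : Pool.Agent.SmJ.Sys (GG k Ω) V V1 (Place k (RatFunc k)))
    (hNN : S.NN = NN (RatFunc k) Ω) {dg : ℕ → GG k Ω → ℕ} (hact : ∀ m, IsDeg m (dg m)) :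
    Pool.Agent.SmH.DegTF S dg := by
  intro m
  refine ⟨Hn k Ω (2 ^ m), by rw [hNN]; exact Hn_mem h2 m, fun n hn => ?_⟩
  obtain ⟨ζ, h1, h3⟩ := exists_gen (k := k) (Ω := Ω) h2 m
  apply h3
  rw [← hact m n ζ h1, hn ζ h1, pow_zero, pow_one]

/-- RecDeg for a system -/
theorem recDeg_sys (h2 : (2 : k) ≠ 0)
    (S : Pool.Agent.SmJ.Sys (GG k Ω) V V1 (Place k (RatFunc k)))
    (hNN : S.NN = NN (RatFunc k) Ω) (hD : ∀ v, S.D v = dv Ω v) (hsg : ∀ v, S.sg v = sg Ω v)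
    {nm : Place k (RatFunc k) → MuT Ω →+ MuT Ω} (hnm : IsNm nm)
    {deg : Place k (RatFunc k) → ℕ} (hdeg : IsPDeg Ω deg) {dg : ℕ → GG k Ω → ℕ}
    (hdg : Pool.Agent.SmH.IsDeg dg) (hact : ∀ m, IsDeg m (dg m)) :
    Pool.Agent.SmH.RecDeg S dg deg nm := by
  intro F c B hF hFc hcT hBT hcc hFB hfin
  have e1 : ∀ v, deg v • nm v (c v (S.sg v)) = deg v • nm v (c v (sg Ω v)) := fun v => by
    rw [hsg v]
  rw [finsum_congr e1]
  refine rec_deg h2 hnm hdeg hdg hact F c B ?_ hFc ?_ ?_ ?_ ?_ ?_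
  · obtain ⟨N, hN, h1⟩ := hF
    exact ⟨N, hNN ▸ hN, h1⟩
  · intro v
    obtain ⟨N, hN, h1⟩ := hcT v
    refine ⟨N, hNN ▸ hN, ?_⟩
    rw [← hD v]
    exact h1
  · intro v
    obtain ⟨N, hN, h1⟩ := hBT v
    refine ⟨N, hNN ▸ hN, ?_⟩
    rw [← hD v]
    exact h1
  · intro v
    rw [← hD v]
    exact hcc v
  · intro v
    rw [← hD v]
    exact hFB v
  · refine hfin.subset fun v hv => ?_
    change c v (S.sg v) ≠ 0
    rw [hsg v]
    exact hv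

/-- the tame generators have degree zero -/
theorem degU_sys (h2 : (2 : k) ≠ 0)
    (S : Pool.Agent.SmJ.Sys (GG k Ω) V V1 (Place k (RatFunc k)))
    (hsg : ∀ v, S.sg v = sg Ω v) {dg : ℕ → GG k Ω → ℕ} (hact : ∀ m, IsDeg m (dg m)) :
    Pool.Agent.SmH.DegU S dg := by
  intro v _ m
  rw [hsg v]
  exact (hact m).HH h2 (sg_HH h2 v)

/-- all facts about the degree for a system over `k(t)` -/
theorem degOk_sys (h2 : (2 : k) ≠ 0)
    (S : Pool.Agent.SmJ.Sys (GG k Ω) V V1 (Place k (RatFunc k)))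
    (hNN : S.NN = NN (RatFunc k) Ω) (hD : ∀ v, S.D v = dv Ω v) (hsg : ∀ v, S.sg v = sg Ω v)
    (H : Pool.Agent.SmH.HData V (MuT Ω) (Place k (RatFunc k)))
    (hnm : IsNm H.nm) (hdeg : IsPDeg Ω H.deg) {dg : ℕ → GG k Ω → ℕ}
    (hdg : Pool.Agent.SmH.IsDeg dg) (hact : ∀ m, IsDeg m (dg m)) :
    Pool.Agent.SmH.DegOk S H dg :=
  ⟨hdg, degTF_sys h2 S hNN hact, degU_sys h2 S hsg hact,
    recDeg_sys h2 S hNN hD hsg hnm hdeg hdg hact⟩

end Pool.Agent.Ht
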