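import Pool.Agent.Lib.Ht.R.Glob
import Pool.Agent.Lib.SM.C.Hasse

set_option autoImplicit false

/-!
HEIGHTS, block R: the Kummer cocycle of `f ∈ k(t)` and the product formula (K1) for all cocycles with
values in the roots of unity of order a power of `2`.
-/

namespace Pool.Agent.Ht

open Polynomial Pool.Agent.SmithC Pool.Agent.SmD Pool.Agent.Lib.SmD Pool.Agent.BSDFF Pool.Agent.SmP

variable {k Ω : Type} [Field k] [Field Ω] [Algebra (RatFunc k) Ω]

variable (Ω) in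
/-- the Kummer cocycle of `f` -/
noncomputable def kc (e : ℕ) (f : RatFunc k) (s : GG k Ω) : Ωˣ :=
  kumU (2 ^ e) (algebraMap (RatFunc k) Ω f) s

theorem kc_sg (e : ℕ) (f : RatFunc k) (v : Place k (RatFunc k)) : kc Ω e f (sg Ω v) = kv Ω e f v :=
  rfl

theorem kc_coc (e : ℕ) (f : RatFunc k) (s t : GG k Ω) :
    kc Ω e f (s * t) = kc Ω e f s * s • kc Ω e f t := cob_coc _ s t

/-- a function with values in `MuT Ω` with finitely many values is killed by a power of `2` -/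
theorem exists_exp {α : Type} {f : α → MuT Ω} (h : (Set.range f).Finite) :
    ∃ e : ℕ, ∀ s, (2 : ℕ) ^ e • f s = 0 := by
  classical
  choose j hj using fun u : MuT Ω => MuT.tors u
  refine ⟨h.toFinset.sup j, fun s => ?_⟩
  have h1 : j (f s) ≤ h.toFinset.sup j :=
    Finset.le_sup (f := j) (h.mem_toFinset.2 ⟨s, rfl⟩)
  obtain ⟨m, hm⟩ := Nat.exists_eq_add_of_le h1
  rw [hm, pow_add, mul_comm, mul_nsmul', hj, nsmul_zero]

/-- a function which is right invariant under an open normal subgroup has finitely many values -/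
theorem finite_range_on {α : Type} {N A : Subgroup (GG k Ω)} (hNo : IsOpen (N : Set (GG k Ω)))
    [IsGalois (RatFunc k) Ω] {f : GG k Ω → α}
    (h : ∀ s ∈ A, ∀ n ∈ N, n ∈ A → f (s * n) = f s) : (f '' (A : Set (GG k Ω))).Finite := by
  classical
  have hfin : Finite (GG k Ω ⧸ N) := Subgroup.quotient_finite_of_isOpen N hNo
  let g : GG k Ω ⧸ N → Set α := fun x =>
    {a | ∃ s ∈ A, (QuotientGroup.mk s : GG k Ω ⧸ N) = x ∧ f s = a}
  have hg : ∀ x, (g x).Finite := by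
    intro x
    by_cases hx : (g x).Nonempty
    · obtain ⟨a, s, hs, hsx, -⟩ := hx
      refine (Set.finite_singleton (f s)).subset ?_
      rintro b ⟨t, ht, htx, rfl⟩
      rw [Set.mem_singleton_iff]
      have h1 : s⁻¹ * t ∈ N := QuotientGroup.eq.1 (hsx.trans htx.symm)
      have h3 := h s hs _ h1 (A.mul_mem (A.inv_mem hs) ht)
      rwa [mul_inv_cancel_left] at h3
    · rw [Set.not_nonempty_iff_eq_empty] at hx
      rw [hx]
      exact Set.finite_empty
  refine (Set.finite_iUnion hg).subset ?_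
  rintro a ⟨s, hs, rfl⟩
  exact Set.mem_iUnion.2 ⟨QuotientGroup.mk s, s, hs, rfl, rfl⟩

section

variable [Finite k] [IsSepClosure (RatFunc k) Ω] (h2 : (2 : k) ≠ 0)

include h2

theorem kc_mu (e : ℕ) {f : RatFunc k} (hf : f ≠ 0) (s : GG k Ω) : kc Ω e f s ^ (2 ^ e) = 1 :=
  kumU_pow h2 e (map_ne hf) (s.commutes _)

/-- an open normal subgroup of index a power of `2` which acts trivially on the roots of unity of
order `2^e` and on the `2^e`-th roots of `f` -/
theorem exists_NN_kum (e : ℕ) (f : RatFunc k) (hf : f ≠ 0) :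
    ∃ N ∈ NN (RatFunc k) Ω, (∀ n ∈ N, ∀ u : Ωˣ, u ^ (2 ^ e) = 1 → n • u = u) ∧
      ∀ n ∈ N, ∀ s : GG k Ω, kc Ω e f (s * n) = kc Ω e f s := by
  have hgal : IsGalois (RatFunc k) Ω := IsSepClosure.isGalois
  set N0 : Subgroup (GG k Ω) := (actMu k (Ω := Ω) (2 ^ e)).ker with hN0
  have hN0m : N0 ∈ NN (RatFunc k) Ω := nMu_mem (k := k) (Ω := Ω) h2 e
  have hN0u : ∀ n ∈ N0, ∀ u : Ωˣ, u ^ (2 ^ e) = 1 → n • u = u := fun n hn u hu =>
    congrArg (fun v : rootsOfUnity (2 ^ e) Ω => (v : Ωˣ)) (nMu_triv hn ⟨u, hu⟩)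
  set r : Ωˣ := rtU (2 ^ e) (algebraMap (RatFunc k) Ω f) with hr
  have hkr : ∀ g : GG k Ω, g • r = kc Ω e f g * r := fun g => by
    unfold kc kumU
    rw [inv_mul_cancel_right]
  set N1 : Subgroup (GG k Ω) := N0 ⊓ MulAction.stabilizer (GG k Ω) r with hN1
  have hmem : ∀ n, n ∈ N1 ↔ n ∈ N0 ∧ n • r = r := fun n => Iff.rfl
  have hnorm : N1.Normal := by
    refine ⟨fun n hn g => ?_⟩
    rw [hmem] at hn ⊢
    refine ⟨(NN.normal hN0m).conj_mem n hn.1 g, ?_⟩
    rw [mul_smul, mul_smul, hkr g⁻¹, smul_mul', hN0u n hn.1 _ (kc_mu h2 e hf g⁻¹), hn.2, ← hkr,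
      smul_inv_smul]
  have hopen : IsOpen (N1 : Set (GG k Ω)) := by
    have h1 : MulAction.stabilizer (GG k Ω) r = MulAction.stabilizer (GG k Ω) (r : Ω) := by
      ext g
      rw [MulAction.mem_stabilizer_iff, MulAction.mem_stabilizer_iff, Units.ext_iff]
      rfl
    rw [hN1, Subgroup.coe_inf, h1]
    exact (NN.isOpen hN0m).inter (stabilizer_isOpen_of_isIntegral (K := RatFunc k) _)
  have hpow : ∀ σ : GG k Ω, ∃ m : ℕ, σ ^ (2 ^ m) ∈ N1 := by
    intro σ
    obtain ⟨r0, hr0⟩ := hN0m.2.2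
    have hn := NN.normal hN0m
    have h1 : σ ^ (2 ^ r0) ∈ N0 := by
      rw [← hr0]
      exact Subgroup.pow_index_mem N0 σ
    have h3 : ∀ j : ℕ, kc Ω e f ((σ ^ (2 ^ r0)) ^ j) = kc Ω e f (σ ^ (2 ^ r0)) ^ j := by
      intro j
      induction j with
      | zero =>
        rw [pow_zero, pow_zero]
        unfold kc kumU
        rw [one_smul, mul_inv_cancel]
      | succ j ih =>
        rw [pow_succ, kc_coc, ih, pow_succ,
          hN0u _ (N0.pow_mem h1 j) _ (kc_mu h2 e hf _)]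
    refine ⟨r0 + e, ?_⟩
    rw [pow_add 2, pow_mul]
    refine (hmem _).2 ⟨N0.pow_mem h1 _, ?_⟩
    rw [hkr, h3, kc_mu h2 e hf, one_mul]
  refine ⟨N1, mem_NN_of_pow hnorm hopen hpow, fun n hn u hu => hN0u n hn.1 u hu,
    fun n hn s => ?_⟩
  have h1 : kc Ω e f n = 1 := by
    have h3 := hkr n
    rw [hn.2] at h3
    exact (mul_eq_right.1 h3.symm)
  rw [kc_coc, h1, smul_one, mul_one]

/-- the degree modulo `2^e` is `2`-finite -/
theorem Hn_mem (e : ℕ) : Hn k Ω (2 ^ e) ∈ NN (RatFunc k) Ω := by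
  have hgal : IsGalois (RatFunc k) Ω := IsSepClosure.isGalois
  have hnorm : (Hn k Ω (2 ^ e)).Normal := inferInstance
  refine mem_NN_of_pow hnorm (isOpen_Hn (k := k) (Ω := Ω) (n := 2 ^ e) (by positivity))
    fun σ => ⟨e, ?_⟩
  obtain ⟨d, hd⟩ := exists_isDeg (k := k) (Ω := Ω) h2 e
  intro x hx
  have hcst : Pool.Agent.SmithC.IsCst k x := ⟨2 ^ e, by positivity, hx⟩
  have h1 : ∀ j : ℕ, (σ ^ j) x = x ^ (Nat.card k ^ (d σ * j)) := by
    intro j
    induction j with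
    | zero => simp
    | succ j ih =>
      rw [pow_succ', AlgEquiv.mul_apply, ih, map_pow, hd σ x hx, ← pow_mul, ← pow_add,
        Nat.mul_succ, add_comm]
  rw [h1, mul_comm (d σ)]
  exact pow_pow_mul x _ _ _ hx

/-- K1: the product formula -/
theorem prod_formula {nm : Place k (RatFunc k) → MuT Ω →+ MuT Ω} (hnm : IsNm nm)
    {deg : Place k (RatFunc k) → ℕ} (hdeg : IsPDeg Ω deg) (h : GG k Ω → MuT Ω)
    (htf : ∃ N ∈ NN (RatFunc k) Ω, ∀ s, ∀ n ∈ N, h (s * n) = h s)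
    (hc : ∀ s t, h (s * t) = h s + s • h t) :
    ∑ᶠ v, deg v • nm v (h (sg Ω v)) = 0 := by
  have hgal : IsGalois (RatFunc k) Ω := IsSepClosure.isGalois
  obtain ⟨N, hN, hNh⟩ := htf
  have hN0 := NN.isOpen hN
  have hfin : (Set.range h).Finite := by
    have h1 := finite_range_on (A := ⊤) hN0 (f := h) (fun s _ n hn _ => hNh s n hn)
    rwa [Subgroup.coe_top, Set.image_univ] at h1
  obtain ⟨e, he⟩ := exists_exp hfin
  obtain ⟨y, hy⟩ := h90U (k := k) (⊤ : Subgroup (GG k Ω)) (fun s => ofM (h s))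
    ⟨N, NN.normal hN, hN0, fun s _ n hn _ => congrArg ofM (hNh s n hn)⟩
    (fun s _ t _ => by
      change ofM (h (s * t)) = ofM (h s) * s • ofM (h t)
      rw [hc, ofM_add, ofM_smul])
  have hy' : ∀ s : GG k Ω, s • y = ofM (h s) * y := fun s => by
    have h1 : ofM (h s) = s • y * y⁻¹ := hy s (Subgroup.mem_top s)
    rw [h1, inv_mul_cancel_right]
  have hfix : ∀ s : GG k Ω, s ((y : Ω) ^ (2 ^ e)) = (y : Ω) ^ (2 ^ e) := by
    intro s
    have h1 : s • (y ^ (2 ^ e)) = y ^ (2 ^ e) := by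
      rw [smul_pow', hy', mul_pow, ofM_pow (he s), one_mul]
    have h3 := congrArg (fun u : Ωˣ => (u : Ω)) h1
    simpa using h3
  obtain ⟨f, hf⟩ := (InfiniteGalois.mem_range_algebraMap_iff_fixed (k := RatFunc k) (K := Ω)
    ((y : Ω) ^ (2 ^ e))).2 hfix
  have hf0 : f ≠ 0 := by
    rintro rfl
    rw [map_zero] at hf
    exact pow_ne_zero _ y.ne_zero hf.symm
  have key : ∀ v : Place k (RatFunc k), h (sg Ω v) = toM (kv Ω e f v) := by
    intro v
    have h1 : kv Ω e f v = ofM (h (sg Ω v)) := by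
      unfold kv
      rw [kumU_eq h2 e (map_ne hf0) (sg_HH h2 v) hf.symm, hy', mul_inv_cancel_right]
    rw [h1, toM_ofM]
  have e1 : ∀ v, deg v • nm v (h (sg Ω v)) = deg v • nm v (toM (kv Ω e f v)) := fun v => by
    rw [key v]
  rw [finsum_congr e1]
  exact prod_kum h2 hnm hdeg e f hf0

end

end Pool.Agent.Ht
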