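import Pool.Agent.Lib.Ht.R.Deg
import Pool.Agent.Lib.SmD.Gen

set_option autoImplicit false

/-!
HEIGHTS, block R: local statements at a place `v` of `k(t)`. `D = dv Ω v`, `I = iner`, `φ = ph Ω v`,
`τ = sg Ω v`; cochains have values in `Ωˣ`.

* `coc_one`: a cocycle on `D` with values in `μ_(2^e)` which is `1` at `τ` and `φ` is trivial;
* `unr_split` (L1): if `ε` is a cocycle on `D` with values in `μ_(2^e)` and `ε τ = 1` then
  `deg ∪ ε` is a coboundary on `D`;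
* `split_one` (L2): if `deg ∪ ε = dB`, `B` with values in `μ_(2^e)`, then `ε τ ^ deg φ = 1`.
-/

namespace Pool.Agent.Ht

open Pool.Agent.SmithC Pool.Agent.Lib.SmD Pool.Agent.BSDFF

variable {k Ω : Type} [Field k] [Field Ω] [Algebra (RatFunc k) Ω]

/-- cocycle on a subgroup with values in `μ_(2^e)`, locally constant -/
structure Coc1 (e : ℕ) (A : Subgroup (GG k Ω)) (c : GG k Ω → Ωˣ) : Prop where
  mu : ∀ s, c s ^ (2 ^ e) = 1
  lc : LCOn A c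
  coc : ∀ s ∈ A, ∀ t ∈ A, c (s * t) = c s * s • c t

theorem Coc1.one {e : ℕ} {A : Subgroup (GG k Ω)} {c : GG k Ω → Ωˣ} (h : Coc1 e A c) : c 1 = 1 := by
  have h1 := h.coc 1 A.one_mem 1 A.one_mem
  rw [one_mul, one_smul] at h1
  exact (mul_eq_left.1 h1.symm)

theorem exists_pow_prim {e : ℕ} {ζ u : Ωˣ} (hζ : IsPrimitiveRoot ζ (2 ^ e))
    (hu : u ^ (2 ^ e) = 1) : ∃ n : ℕ, u = ζ ^ n := by
  have h1 : IsPrimitiveRoot (ζ : Ω) (2 ^ e) := IsPrimitiveRoot.coe_units_iff.2 hζ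
  have h3 : (u : Ω) ^ (2 ^ e) = 1 := by
    rw [← Units.val_pow_eq_pow_val, hu, Units.val_one]
  have : NeZero (2 ^ e) := ⟨by positivity⟩
  obtain ⟨n, -, hn⟩ := h1.eq_pow_of_pow_eq_one h3
  exact ⟨n, Units.ext (by rw [Units.val_pow_eq_pow_val, hn])⟩

theorem smul_div_eq {s : GG k Ω} (a b : Ωˣ) : s • (a * b⁻¹) = s • a * (s • b)⁻¹ := by
  rw [smul_mul', smul_inv']

/-- coboundaries are cocycles -/
theorem cob_coc (ξ : Ωˣ) (s t : GG k Ω) :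
    (s * t) • ξ * ξ⁻¹ = (s • ξ * ξ⁻¹) * s • (t • ξ * ξ⁻¹) := by
  rw [smul_div_eq, mul_smul]
  have : ∀ a b c : Ωˣ, a * c⁻¹ = b * c⁻¹ * (a * b⁻¹) := by
    intro a b c
    rw [mul_comm a b⁻¹, mul_assoc, mul_comm c⁻¹, mul_assoc, mul_inv_cancel_left]
  exact this _ _ _

section

variable [Finite k] [IsSepClosure (RatFunc k) Ω] (h2 : (2 : k) ≠ 0)

include h2

/-- the Kummer symbol of a uniformizer at the tame generator is primitive -/
theorem kum_prim (e : ℕ) (v : Place k (RatFunc k)) {π : v.ring} (hπ : Irreducible π) :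
    IsPrimitiveRoot (kumU (2 ^ e) (algebraMap (RatFunc k) Ω (π : RatFunc k)) (sg Ω v))
      (2 ^ e) := by
  have hsc : IsSepClosed Ω := IsSepClosure.sep_closed (RatFunc k)
  have hgal : IsGalois (RatFunc k) Ω := IsSepClosure.isGalois
  have hL := locHyp_ab (Om := Ω) h2 v hπ
  have hp0 : algebraMap (RatFunc k) Ω (π : RatFunc k) ≠ 0 := by
    rw [Ne, map_eq_zero]
    exact hL.pi_ne
  have hfix : sg Ω v (algebraMap (RatFunc k) Ω (π : RatFunc k))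
      = algebraMap (RatFunc k) Ω (π : RatFunc k) := (sg Ω v).commutes _
  have hpow := kumU_pow (k := k) h2 e hp0 hfix
  cases e with
  | zero =>
    rw [pow_zero, pow_one] at hpow
    rw [pow_zero, IsPrimitiveRoot.one_right_iff]
    exact hpow
  | succ n =>
    have hF : Fact (Nat.Prime 2) := ⟨Nat.prime_two⟩
    rw [IsPrimitiveRoot.iff_orderOf]
    refine orderOf_eq_prime_pow ?_ hpow
    intro hcon
    set r : Ωˣ := rtU (2 ^ (n + 1)) (algebraMap (RatFunc k) Ω (π : RatFunc k)) with hr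
    have hrs : (r : Ω) ^ (2 ^ (n + 1)) = algebraMap (RatFunc k) Ω (π : RatFunc k) :=
      rtU_spec (k := k) h2 (n + 1) hp0
    have hy2 : ((r : Ω) ^ (2 ^ n)) ^ 2 = algebraMap (RatFunc k) Ω (π : RatFunc k) := by
      rw [← pow_mul, ← pow_succ, hrs]
    have hyf : sg Ω v ((r : Ω) ^ (2 ^ n)) = (r : Ω) ^ (2 ^ n) := by
      have h1 : (sg Ω v • r) ^ (2 ^ n) = r ^ (2 ^ n) := by
        have h3 : sg Ω v • r
            = kumU (2 ^ (n + 1)) (algebraMap (RatFunc k) Ω (π : RatFunc k)) (sg Ω v) * r := by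
          unfold kumU
          rw [inv_mul_cancel_right]
        rw [h3, mul_pow, hcon, one_mul]
      have h4 := congrArg (fun u : Ωˣ => (u : Ω)) h1
      simp only [Units.val_pow_eq_pow_val] at h4
      rw [map_pow]
      exact h4
    have h5 := (chi_eq_zero_iff _ (sg Ω v) hy2).2 hyf
    rw [chi_sg_irr h2 v hπ] at h5
    exact one_ne_zero h5

/-- homomorphisms on inertia which vanish at `τ` -/
theorem hom_iner_one (e : ℕ) (v : Place k (RatFunc k)) (ψ : GG k Ω → Ωˣ)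
    (hM : ∀ s, ψ s ^ (2 ^ e) = 1) (hlc : LCOn (iner (RatFunc k) (ab Ω v)) ψ)
    (hhom : ∀ s ∈ iner (RatFunc k) (ab Ω v), ∀ t ∈ iner (RatFunc k) (ab Ω v),
      ψ (s * t) = ψ s * ψ t)
    (hψ : ψ (sg Ω v) = 1) : ∀ s ∈ iner (RatFunc k) (ab Ω v), ψ s = 1 := by
  have hsc : IsSepClosed Ω := IsSepClosure.sep_closed (RatFunc k)
  obtain ⟨π, hπ, hL⟩ := exists_locHyp (Om := Ω) h2 v
  have hp0 : algebraMap (RatFunc k) Ω (π : RatFunc k) ≠ 0 := by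
    rw [Ne, map_eq_zero]
    exact hL.pi_ne
  exact homU h2 e hL hp0 (fun s _ => s.commutes _) (sg_iner h2 v) (kum_prim h2 e v hπ) ψ hM hlc
    hhom hψ

theorem mu_fix_I {e : ℕ} {v : Place k (RatFunc k)} {s : GG k Ω}
    (hs : s ∈ iner (RatFunc k) (ab Ω v)) {u : Ωˣ} (hu : u ^ (2 ^ e) = 1) : s • u = u :=
  mu_fix_iner (val_two h2 v) hs e hu

theorem Coc1.iner_hom {e : ℕ} {v : Place k (RatFunc k)} {c : GG k Ω → Ωˣ}
    (h : Coc1 e (dv Ω v) c) : ∀ s ∈ iner (RatFunc k) (ab Ω v), ∀ t ∈ iner (RatFunc k) (ab Ω v),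
      c (s * t) = c s * c t := by
  intro s hs t ht
  rw [h.coc s (iner_le_dec _ _ hs) t (iner_le_dec _ _ ht), mu_fix_I h2 hs (h.mu t)]

theorem Coc1.iner_one {e : ℕ} {v : Place k (RatFunc k)} {c : GG k Ω → Ωˣ}
    (h : Coc1 e (dv Ω v) c) (hτ : c (sg Ω v) = 1) :
    ∀ s ∈ iner (RatFunc k) (ab Ω v), c s = 1 :=
  hom_iner_one h2 e v c h.mu (h.lc.mono (iner_le_dec _ _)) (h.iner_hom h2) hτ

/-- a cocycle on `D` which is trivial at `τ` and `φ` is trivial -/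
theorem Coc1.eq_one {e : ℕ} {v : Place k (RatFunc k)} {c : GG k Ω → Ωˣ}
    (h : Coc1 e (dv Ω v) c) (hτ : c (sg Ω v) = 1) (hφ : c (ph Ω v) = 1) :
    ∀ s ∈ dv Ω v, c s = 1 := by
  have hsc : IsSepClosed Ω := IsSepClosure.sep_closed (RatFunc k)
  have hgal : IsGalois (RatFunc k) Ω := IsSepClosure.isGalois
  have hI := h.iner_one h2 hτ
  have hfin : Finite (IsLocalRing.ResidueField (below (RatFunc k) (ab Ω v))) :=
    finite_residue_below v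
  have hF := ph_frob (Om := Ω) v
  obtain ⟨N, hNn, hNo, hN⟩ := h.lc
  obtain ⟨L, hL, hLN⟩ := exists_field_le hNo
  have hpow : ∀ n : ℕ, c (ph Ω v ^ n) = 1 := by
    intro n
    induction n with
    | zero => rw [pow_zero, h.one]
    | succ n ih =>
      rw [pow_succ, h.coc _ ((dv Ω v).pow_mem hF.mem n) _ hF.mem, ih, hφ, smul_one, mul_one]
  intro s hs
  obtain ⟨n, ι, hι, hsι⟩ := fin_gen hF L hs
  have hιD : ι ∈ dv Ω v := iner_le_dec _ _ hι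
  have hιn : ι * ph Ω v ^ n ∈ dv Ω v := (dv Ω v).mul_mem hιD ((dv Ω v).pow_mem hF.mem n)
  have h1 : (ι * ph Ω v ^ n)⁻¹ * s ∈ N := by
    apply hLN
    rw [IntermediateField.mem_fixingSubgroup_iff]
    intro x hx
    change ((ι * ph Ω v ^ n)⁻¹ * s) x = x
    rw [AlgEquiv.mul_apply, hsι x hx, ← AlgEquiv.mul_apply ι, ← AlgEquiv.mul_apply,
      inv_mul_cancel, AlgEquiv.one_apply]
  have h3 := hN _ hιn _ h1 ((dv Ω v).mul_mem ((dv Ω v).inv_mem hιn) hs)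
  rw [mul_inv_cancel_left] at h3
  rw [h3, h.coc _ hιD _ ((dv Ω v).pow_mem hF.mem n), hI ι hι, hpow, smul_one, mul_one]

/-- roots of order prime to `2` exist in `μ_(2^e)` -/
theorem odd_root {e m : ℕ} (hm : Odd m) {ζ : Ωˣ} (hζ : ζ ^ (2 ^ e) = 1) :
    ∃ ξ : Ωˣ, ξ ^ (2 ^ e) = 1 ∧ ξ ^ m = ζ := by
  have hc : IsCoprime (m : ℤ) ((2 ^ e : ℕ) : ℤ) := by
    rw [Nat.isCoprime_iff_coprime]
    exact (Nat.Coprime.pow_right e hm.coprime_two_right)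
  obtain ⟨a, b, hab⟩ := hc
  refine ⟨ζ ^ a, ?_, ?_⟩
  · rw [← zpow_natCast, ← zpow_mul, mul_comm, zpow_mul, zpow_natCast, hζ, one_zpow]
  · have h1 : ζ ^ (a * (m : ℤ) + b * ((2 ^ e : ℕ) : ℤ)) = ζ := by rw [hab, zpow_one]
    rw [zpow_add, mul_comm b, zpow_mul ζ ((2 ^ e : ℕ) : ℤ), zpow_natCast, hζ, one_zpow,
      mul_one] at h1
    rw [← zpow_natCast, ← zpow_mul]
    exact h1

/-- an element of `μ_(2^e)` is `φ ξ / ξ` with `ξ` of order a power of `2` -/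
theorem frob_div (e : ℕ) (v : Place k (RatFunc k)) {ζ : Ωˣ} (hζ : ζ ^ (2 ^ e) = 1) :
    ∃ (e' : ℕ) (ξ : Ωˣ), e ≤ e' ∧ ξ ^ (2 ^ e') = 1 ∧ ph Ω v • ξ * ξ⁻¹ = ζ := by
  have hsc : IsSepClosed Ω := IsSepClosure.sep_closed (RatFunc k)
  have hgal : IsGalois (RatFunc k) Ω := IsSepClosure.isGalois
  have hfin : Finite (IsLocalRing.ResidueField (below (RatFunc k) (ab Ω v))) :=
    finite_residue_below v
  obtain ⟨p, s, hp, -, hO, hs, hq⟩ := locRoot_char k Ω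
  have hpF : Fact p.Prime := ⟨hp⟩
  set Q : ℕ := resCard (below (RatFunc k) (ab Ω v)) with hQ
  have hQ1 : 1 < Q := Finite.one_lt_card
  obtain ⟨a, m, hm, hQm⟩ := Nat.exists_eq_two_pow_mul_odd (n := Q - 1) (by omega)
  obtain ⟨η, hη, hηm⟩ := odd_root (k := k) h2 hm hζ
  obtain ⟨ξ, hξ⟩ := exists_rootU (k := k) h2 a η.ne_zero
  have hξ' : ξ ^ (2 ^ a) = η := Units.ext (by rw [Units.val_pow_eq_pow_val, hξ])
  refine ⟨a + e, ξ, by omega, by rw [pow_add, pow_mul, hξ', hη], ?_⟩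
  have h1 : ξ ^ Q = ζ * ξ := by
    have h3 : Q = (Q - 1) + 1 := by omega
    rw [h3, pow_succ, hQm, pow_mul, hξ', hηm]
  have hcst : Pool.Agent.SmithC.IsCst k (ξ : Ω) := by
    refine isCst_of_pow_eq_one (k := k) (2 ^ (a + e)) (by positivity) _ ?_
    rw [← Units.val_pow_eq_pow_val, pow_add, pow_mul, hξ', hη, Units.val_one]
  have h3 : ph Ω v • ξ = ξ ^ Q := by
    apply Units.ext
    change ph Ω v (ξ : Ω) = _
    rw [Units.val_pow_eq_pow_val]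
    exact (ph_frob (Om := Ω) v).cst (hcst.conv hs hq)
  rw [h3, h1, mul_inv_cancel_right]

theorem lcOn_cob (A : Subgroup (GG k Ω)) (ξ : Ωˣ) : LCOn A (fun s => s • ξ * ξ⁻¹) := by
  obtain ⟨N, h1, h2', h3⟩ := exists_open_fix (k := k) (ξ : Ω)
  refine ⟨N, h1, h2', fun s _ n hn _ => ?_⟩
  have h4 : n • ξ = ξ := Units.ext (h3 n hn)
  change (s * n) • ξ * ξ⁻¹ = s • ξ * ξ⁻¹
  rw [mul_smul, h4]

/-- a cocycle on `D` unramified (trivial at `τ`) is `dξ` with `ξ` a root of unity -/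
theorem Coc1.unr {e : ℕ} {v : Place k (RatFunc k)} {c : GG k Ω → Ωˣ}
    (h : Coc1 e (dv Ω v) c) (hτ : c (sg Ω v) = 1) :
    ∃ (e' : ℕ) (ξ : Ωˣ), e ≤ e' ∧ ξ ^ (2 ^ e') = 1 ∧ ∀ s ∈ dv Ω v, c s = s • ξ * ξ⁻¹ := by
  have hsc : IsSepClosed Ω := IsSepClosure.sep_closed (RatFunc k)
  obtain ⟨e', ξ, hee, hξ, hφ⟩ := frob_div h2 e v (h.mu (ph Ω v))
  refine ⟨e', ξ, hee, hξ, ?_⟩
  have hmu : ∀ s : GG k Ω, (s • ξ * ξ⁻¹) ^ (2 ^ e') = 1 := fun s => by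
    rw [mul_pow, inv_pow, ← smul_pow', hξ, smul_one, one_mul, inv_one]
  have hc' : Coc1 e' (dv Ω v) (fun s => c s * (s • ξ * ξ⁻¹)⁻¹) := by
    refine ⟨fun s => ?_, ?_, fun s hs t ht => ?_⟩
    · obtain ⟨m, rfl⟩ : ∃ m, e' = e + m := ⟨e' - e, by omega⟩
      rw [mul_pow, inv_pow, hmu s, inv_one, mul_one, pow_add, pow_mul, h.mu, one_pow]
    · exact (h.lc.prod (lcOn_cob h2 (dv Ω v) ξ)).comp fun x : Ωˣ × Ωˣ => x.1 * x.2⁻¹
    · have e1 : s • (c t * (t • ξ * ξ⁻¹)⁻¹) = s • c t * (s • (t • ξ * ξ⁻¹))⁻¹ := by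
        rw [smul_mul', smul_inv']
      change c (s * t) * ((s * t) • ξ * ξ⁻¹)⁻¹
        = c s * (s • ξ * ξ⁻¹)⁻¹ * s • (c t * (t • ξ * ξ⁻¹)⁻¹)
      rw [e1, h.coc s hs t ht, cob_coc ξ s t, mul_inv, mul_mul_mul_comm]
  intro s hs
  have h1 := hc'.eq_one h2 (v := v) ?_ ?_ s hs
  · exact mul_inv_eq_one.1 h1
  · have h3 : sg Ω v • ξ = ξ := mu_fix_I h2 (sg_iner h2 v) hξ
    change c (sg Ω v) * (sg Ω v • ξ * ξ⁻¹)⁻¹ = 1
    rw [hτ, h3, mul_inv_cancel, inv_one, mul_one]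
  · change c (ph Ω v) * (ph Ω v • ξ * ξ⁻¹)⁻¹ = 1
    rw [hφ, mul_inv_cancel]

/-- L1: `deg ∪ ε` is a coboundary for unramified `ε` -/
theorem unr_split {e : ℕ} {d : GG k Ω → ℕ} (hd : IsDeg e d) {v : Place k (RatFunc k)}
    {c : GG k Ω → Ωˣ} (h : Coc1 e (dv Ω v) c) (hτ : c (sg Ω v) = 1) :
    ∃ B : GG k Ω → Ωˣ, LCOn (dv Ω v) B ∧
      SplU (dv Ω v) (fun s t => (s • c t) ^ d s) B := by
  obtain ⟨e', ξ, hee, hξ, hc⟩ := h.unr h2 hτ
  obtain ⟨d', hd'⟩ := exists_isDeg (k := k) (Ω := Ω) h2 e'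
  have hsξ : ∀ s : GG k Ω, (s • ξ) ^ (2 ^ e') = 1 := fun s => by
    rw [← smul_pow', hξ, smul_one]
  refine ⟨fun s => ((s • ξ) ^ d' s)⁻¹, ?_, ?_⟩
  · obtain ⟨N, n1, n2, n3⟩ := exists_open_fix (k := k) (ξ : Ω)
    have ho := isOpen_Hn (k := k) (Ω := Ω) (n := 2 ^ e') (by positivity)
    have hnor : (Hn k Ω (2 ^ e')).Normal := inferInstance
    refine ⟨N ⊓ Hn k Ω (2 ^ e'), inferInstance, ?_, fun s _ n hn _ => ?_⟩
    · rw [Subgroup.coe_inf]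
      exact n2.inter ho
    · have h4 : n • ξ = ξ := Units.ext (n3 n hn.1)
      change (((s * n) • ξ) ^ d' (s * n))⁻¹ = _
      rw [mul_smul, h4, pow_modEq (hsξ s) (hd'.Hn h2 hn.2)]
  · intro s hs t ht
    have h5 : (s • c t) ^ d s = (s • c t) ^ d' s := by
      have h6 : (s • c t) ^ (2 ^ e) = 1 := by rw [← smul_pow', h.mu, smul_one]
      exact pow_modEq h6 (hd.unique h2 (hd'.mono hee) s)
    change (s • c t) ^ d s = ((s • ξ) ^ d' s)⁻¹ * s • ((t • ξ) ^ d' t)⁻¹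
      * (((s * t) • ξ) ^ d' (s * t))⁻¹⁻¹
    have h7 : ((s * t) • ξ) ^ d' (s * t) = ((s * t) • ξ) ^ d' s * ((s * t) • ξ) ^ d' t := by
      rw [← pow_add]
      exact pow_modEq (hsξ _) (hd'.mul h2 s t)
    rw [h5, inv_inv, h7, hc t ht, smul_inv', smul_pow', ← mul_smul, smul_mul', smul_inv',
      ← mul_smul, mul_pow, inv_pow]
    generalize (s • ξ) ^ d' s = a
    generalize ((s * t) • ξ) ^ d' s = b
    generalize ((s * t) • ξ) ^ d' t = c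
    rw [mul_comm b a⁻¹, mul_comm b c, mul_assoc a⁻¹, inv_mul_cancel_left]

/-- L2: if `deg ∪ ε` is a coboundary of a cochain with values in `μ_(2^e)` then
`ε τ ^ deg φ = 1` -/
theorem split_one {e : ℕ} {d : GG k Ω → ℕ} (hd : IsDeg e d) {v : Place k (RatFunc k)}
    {c B : GG k Ω → Ωˣ} (h : Coc1 e (dv Ω v) c) (hBM : ∀ s, B s ^ (2 ^ e) = 1)
    (hBlc : LCOn (dv Ω v) B) (hB : SplU (dv Ω v) (fun s t => (s • c t) ^ d s) B) :
    c (sg Ω v) ^ d (ph Ω v) = 1 := by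
  have hsc : IsSepClosed Ω := IsSepClosure.sep_closed (RatFunc k)
  have hgal : IsGalois (RatFunc k) Ω := IsSepClosure.isGalois
  obtain ⟨π, hπ, hL⟩ := exists_locHyp (Om := Ω) h2 v
  have hfin : Finite (IsLocalRing.ResidueField (below (RatFunc k) (ab Ω v))) :=
    finite_residue_below v
  have hp0 : algebraMap (RatFunc k) Ω (π : RatFunc k) ≠ 0 := by
    rw [Ne, map_eq_zero]
    exact hL.pi_ne
  set P : Ω := algebraMap (RatFunc k) Ω (π : RatFunc k) with hP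
  have hPfix : ∀ s : GG k Ω, s P = P := fun s => s.commutes _
  have hprim := kum_prim (Ω := Ω) h2 e v hπ
  have hDH : dv Ω v ⊓ HH k Ω = iner (RatFunc k) (ab Ω v) := locAd_iner
  have hIH : ∀ s ∈ iner (RatFunc k) (ab Ω v), s ∈ HH k Ω := fun s hs => by
    rw [← hDH] at hs
    exact hs.2
  have hID : ∀ s ∈ iner (RatFunc k) (ab Ω v), s ∈ dv Ω v := fun s hs => iner_le_dec _ _ hs
  have hτ : sg Ω v ∈ iner (RatFunc k) (ab Ω v) := sg_iner h2 v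
  have hφ : ph Ω v ∈ dv Ω v := (ph_frob (Om := Ω) v).mem
  -- `B` on `I`
  have hBI : ∀ s ∈ iner (RatFunc k) (ab Ω v), ∀ t ∈ dv Ω v, B (s * t) = B s * B t := by
    intro s hs t ht
    have h1 := hB s (hID s hs) t ht
    have h3 : (s • c t) ^ d s = 1 := by
      have h4 : (s • c t) ^ (2 ^ e) = 1 := by rw [← smul_pow', h.mu, smul_one]
      rw [pow_modEq h4 (hd.HH h2 (hIH s hs)), pow_zero]
    change (s • c t) ^ d s = B s * s • B t * (B (s * t))⁻¹ at h1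
    rw [h3, mu_fix_I h2 hs (hBM t)] at h1
    exact (mul_inv_eq_one.1 h1.symm).symm
  obtain ⟨n, hn⟩ := exists_pow_prim hprim (hBM (sg Ω v))
  have hκM : ∀ s : GG k Ω, kumU (2 ^ e) P s ^ (2 ^ e) = 1 := fun s => kumU_pow h2 e hp0 (hPfix s)
  have hψ := hom_iner_one h2 e v (fun s => B s * (kumU (2 ^ e) P s ^ n)⁻¹) (fun s => by
      rw [mul_pow, hBM, one_mul, inv_pow, ← pow_mul, mul_comm n, pow_mul, hκM, one_pow, inv_one])
    (((hBlc.mono (iner_le_dec _ _)).prod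
      (lcOn_kumU (iner (RatFunc k) (ab Ω v)) (2 ^ e) P)).comp
        fun x : Ωˣ × Ωˣ => x.1 * (x.2 ^ n)⁻¹)
    (fun s hs t ht => by
      change B (s * t) * (kumU (2 ^ e) P (s * t) ^ n)⁻¹
        = B s * (kumU (2 ^ e) P s ^ n)⁻¹ * (B t * (kumU (2 ^ e) P t ^ n)⁻¹)
      rw [hBI s hs t (hID t ht), kumU_mul h2 e hp0 (hIH s hs) (hPfix t), mul_pow, mul_inv]
      exact mul_mul_mul_comm _ _ _ _)
    (by
      change B (sg Ω v) * (kumU (2 ^ e) P (sg Ω v) ^ n)⁻¹ = 1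
      rw [hn, mul_inv_cancel])
  have hBκ : ∀ s ∈ iner (RatFunc k) (ab Ω v), B s = kumU (2 ^ e) P s ^ n := fun s hs =>
    mul_inv_eq_one.1 (hψ s hs)
  -- evaluation at `(φ, τ)`
  set τ' : GG k Ω := ph Ω v * sg Ω v * (ph Ω v)⁻¹ with hτ'
  have hτ'I : τ' ∈ iner (RatFunc k) (ab Ω v) := iner_conj hφ hτ
  have h1 := hB (ph Ω v) hφ (sg Ω v) (hID _ hτ)
  change (ph Ω v • c (sg Ω v)) ^ d (ph Ω v)
    = B (ph Ω v) * ph Ω v • B (sg Ω v) * (B (ph Ω v * sg Ω v))⁻¹ at h1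
  have h3 : ph Ω v * sg Ω v = τ' * ph Ω v := by rw [hτ', inv_mul_cancel_right]
  have h4 : B τ' = ph Ω v • B (sg Ω v) := by
    have h5 := kumU_conj (k := k) h2 e hp0 (ph Ω v) (hIH _ hτ'I)
    have h6 : (ph Ω v)⁻¹ * τ' * ph Ω v = sg Ω v := by rw [hτ']; group
    rw [h6, hPfix] at h5
    rw [hBκ _ hτ'I, ← h5, hBκ _ hτ, smul_pow']
  rw [h3, hBI _ hτ'I _ hφ, h4, mul_comm (B (ph Ω v)), mul_inv_cancel, ← smul_pow'] at h1
  have h7 : (ph Ω v)⁻¹ • (ph Ω v • c (sg Ω v) ^ d (ph Ω v)) = (ph Ω v)⁻¹ • (1 : Ωˣ) :=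
    congrArg (fun u : Ωˣ => (ph Ω v)⁻¹ • u) h1
  rw [← mul_smul, inv_mul_cancel, one_smul, smul_one] at h7
  exact h7

end

end Pool.Agent.Ht
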