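import Pool.Agent.Lib.Ht.R.KumC
import Pool.Agent.Lib.SmH.Link.WSel

set_option autoImplicit false

/-!
HEIGHTS, block R: reciprocity for 2-cocycles with values in the roots of unity of order a power of
`2` which are locally of the form `deg ∪ c_v` up to coboundaries (`RecDeg`).

Proof. `f ∈ k[t]` with `ord_P f = ord_P c_P` at the finite places; `F - deg ∪ κ_f` splits at all finite
places (`deg ∪` unramified splits), so it splits globally (`hasse_mu`); evaluation at infinity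
(`split_one`) gives the same equality at infinity. Then the product formula for `f`.
-/

namespace Pool.Agent.Ht

open Polynomial Pool.Agent.SmithC Pool.Agent.SmD Pool.Agent.Lib.SmD Pool.Agent.BSDFF Pool.Agent.SmP

variable {k Ω : Type} [Field k] [Field Ω] [Algebra (RatFunc k) Ω]

/-- `c` is right invariant under a group of `NN` on the subgroup `A` -/
def TFA {α : Type} (A : Subgroup (GG k Ω)) (c : GG k Ω → α) : Prop :=
  ∃ N ∈ NN (RatFunc k) Ω, ∀ s ∈ A, ∀ n ∈ N, n ∈ A → c (s * n) = c s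

theorem TFA.lc {α : Type} {A : Subgroup (GG k Ω)} {c : GG k Ω → α} (h : TFA A c) : LCOn A c := by
  obtain ⟨N, hN, h1⟩ := h
  exact ⟨N, NN.normal hN, NN.isOpen hN, fun s hs n hn hnA => h1 s hs n hn hnA⟩

/-- locally constant functions may be changed outside of the subgroup -/
theorem LCOn.congr {α : Type} {A : Subgroup (GG k Ω)} {f g : GG k Ω → α} (h : LCOn A f)
    (hfg : ∀ s ∈ A, g s = f s) : LCOn A g := by
  obtain ⟨N, h1, h3, h4⟩ := h
  refine ⟨N, h1, h3, fun s hs n hn hnA => ?_⟩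
  rw [hfg _ (A.mul_mem hs hnA), hfg s hs, h4 s hs n hn hnA]

/-- exponents on a subgroup -/
theorem TFA.exp [IsGalois (RatFunc k) Ω] {A : Subgroup (GG k Ω)} {c : GG k Ω → MuT Ω}
    (h : TFA A c) : ∃ e : ℕ, ∀ s ∈ A, (2 : ℕ) ^ e • c s = 0 := by
  obtain ⟨N, hN, h1⟩ := h
  have h3 := finite_range_on (NN.isOpen hN) h1
  have h4 : (Set.range fun s : A => c s).Finite := by
    refine h3.subset ?_
    rintro _ ⟨s, rfl⟩
    exact ⟨s, s.2, rfl⟩
  obtain ⟨e, he⟩ := exists_exp h4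
  exact ⟨e, fun s hs => he ⟨s, hs⟩⟩

theorem exp_le {m : MuT Ω} {i j : ℕ} (hij : i ≤ j) (h : (2 : ℕ) ^ i • m = 0) :
    (2 : ℕ) ^ j • m = 0 := by
  obtain ⟨r, rfl⟩ := Nat.exists_eq_add_of_le hij
  rw [pow_add, mul_comm, mul_nsmul', h, nsmul_zero]

/-- two-variable functions in `NN` have finitely many values -/
theorem exp_two [IsGalois (RatFunc k) Ω] {F : GG k Ω → GG k Ω → MuT Ω}
    (h : ∃ N ∈ NN (RatFunc k) Ω, ∀ s t, ∀ n ∈ N, ∀ m ∈ N, F (s * n) (t * m) = F s t) :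
    ∃ e : ℕ, ∀ s t, (2 : ℕ) ^ e • F s t = 0 := by
  classical
  obtain ⟨N, hN, h1⟩ := h
  have hfin : Finite (GG k Ω ⧸ N) := Subgroup.quotient_finite_of_isOpen N (NN.isOpen hN)
  have h3 : (Set.range fun p : GG k Ω × GG k Ω => F p.1 p.2).Finite := by
    refine (Set.finite_range fun x : (GG k Ω ⧸ N) × (GG k Ω ⧸ N) => F x.1.out x.2.out).subset ?_
    rintro _ ⟨⟨s, t⟩, rfl⟩
    refine ⟨(QuotientGroup.mk s, QuotientGroup.mk t), ?_⟩
    have key : ∀ s : GG k Ω, ∃ n ∈ N, (QuotientGroup.mk s : GG k Ω ⧸ N).out = s * n := by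
      intro s
      obtain ⟨n, hn⟩ := QuotientGroup.mk_out_eq_mul N s
      exact ⟨n, n.2, hn⟩
    obtain ⟨n, hn, hn'⟩ := key s
    obtain ⟨m, hm, hm'⟩ := key t
    change F (QuotientGroup.mk s : GG k Ω ⧸ N).out (QuotientGroup.mk t : GG k Ω ⧸ N).out = F s t
    rw [hn', hm', h1 s t n hn m hm]
  obtain ⟨e, he⟩ := exists_exp h3
  exact ⟨e, fun s t => he (s, t)⟩

section

variable [Finite k] [IsSepClosure (RatFunc k) Ω] (h2 : (2 : k) ≠ 0)

include h2

/-- an element of `k(t)` with given Kummer symbol at a finite place, unit at the other finite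
places -/
theorem exists_local (e : ℕ) (v : Place k (RatFunc k)) (hv : v ≠ placeInfty k) (u : Ωˣ)
    (hu : u ^ (2 ^ e) = 1) : ∃ f : RatFunc k, f ≠ 0 ∧ kv Ω e f v = u ∧
      ∀ w, w ≠ placeInfty k → w ≠ v → kv Ω e f w = 1 := by
  rcases Pool.Agent.BSDP.R.place_cases v with rfl | ⟨P, hP, hPm, rfl⟩
  · exact absurd rfl hv
  have hP0 : algebraMap k[X] (RatFunc k) P ≠ 0 := by simpa using hP.ne_zero
  have hprim := kum_prim (Ω := Ω) h2 e (placeOf P hP) (Pool.Agent.SmF.unif_placeOf hP)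
  obtain ⟨n, hn⟩ := exists_pow_prim hprim hu
  refine ⟨algebraMap k[X] (RatFunc k) P ^ n, pow_ne_zero _ hP0, ?_, ?_⟩
  · rw [kv_powf h2 e hP0, hn]
    rfl
  · intro w hw hne
    rcases Pool.Agent.BSDP.R.place_cases w with rfl | ⟨Q, hQ, hQm, rfl⟩
    · exact absurd rfl hw
    have hQP : Q ≠ P := by
      rintro rfl
      exact hne rfl
    rw [kv_powf h2 e hP0, kv_other h2 e hQ hP hQm hPm hQP, one_pow]

/-- an element of `k(t)` with given Kummer symbols at the finite places -/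
theorem exists_elt (e : ℕ) (u : Place k (RatFunc k) → Ωˣ) (hu : ∀ v, u v ^ (2 ^ e) = 1)
    (hfin : {v | u v ≠ 1}.Finite) : ∃ f : RatFunc k, f ≠ 0 ∧
      ∀ v, v ≠ placeInfty k → kv Ω e f v = u v := by
  classical
  have hloc : ∀ v, ∃ f : RatFunc k, f ≠ 0 ∧ (v ≠ placeInfty k → kv Ω e f v = u v) ∧
      ∀ w, w ≠ placeInfty k → w ≠ v → kv Ω e f w = 1 := by
    intro v
    by_cases hv : v = placeInfty k
    · refine ⟨1, one_ne_zero, fun h => absurd hv h, fun w _ _ => ?_⟩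
      exact kv_unit h2 e w (by rw [map_one, map_one])
    · obtain ⟨f, h1, h3, h4⟩ := exists_local h2 e v hv (u v) (hu v)
      exact ⟨f, h1, fun _ => h3, h4⟩
  choose f hf0 hfv hfw using hloc
  set S : Finset (Place k (RatFunc k)) := hfin.toFinset with hS
  refine ⟨∏ v ∈ S, f v, Finset.prod_ne_zero_iff.2 fun v _ => hf0 v, fun w hw => ?_⟩
  have hprod : ∀ T : Finset (Place k (RatFunc k)),
      kv Ω e (∏ v ∈ T, f v) w = ∏ v ∈ T, kv Ω e (f v) w := by
    intro T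
    induction T using Finset.induction_on with
    | empty =>
      rw [Finset.prod_empty, Finset.prod_empty]
      exact kv_unit h2 e w (by rw [map_one, map_one])
    | insert a T ha ih =>
      rw [Finset.prod_insert ha, Finset.prod_insert ha,
        kv_mul h2 e (hf0 a) (Finset.prod_ne_zero_iff.2 fun v _ => hf0 v), ih]
  rw [hprod]
  by_cases hwS : w ∈ S
  · rw [Finset.prod_eq_single_of_mem w hwS fun v _ hvw => hfw v w hw (Ne.symm hvw), hfv w hw]
  · rw [Finset.prod_eq_one fun v hv => hfw v w hw (fun h => hwS (h ▸ hv))]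
    by_contra hcon
    exact hwS (hfin.mem_toFinset.2 (Ne.symm hcon))

/-- `deg ∪ κ` is a 2-cocycle -/
theorem cup_coc {e : ℕ} {d : GG k Ω → ℕ} (hd : ∀ s t, d (s * t) ≡ d s + d t [MOD 2 ^ e])
    {κ : GG k Ω → Ωˣ} (hκ : ∀ s, κ s ^ (2 ^ e) = 1) (hc : ∀ s t, κ (s * t) = κ s * s • κ t)
    (s t w : GG k Ω) :
    (s • κ t) ^ d s * ((s * t) • κ w) ^ d (s * t)
      = s • (t • κ w) ^ d t * (s • κ (t * w)) ^ d s := by
  have h1 : ((s * t) • κ w) ^ (2 ^ e) = 1 := by rw [← smul_pow', hκ, smul_one]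
  rw [pow_modEq h1 (hd s t), pow_add, hc t w, smul_mul', mul_pow, smul_pow', ← mul_smul]
  generalize (s • κ t) ^ d s = a
  generalize ((s * t) • κ w) ^ d s = b
  generalize ((s * t) • κ w) ^ d t = c
  rw [mul_comm b c, mul_left_comm]

/-- the value of the degree at the Frobenius at infinity -/
theorem dg_infty {e : ℕ} {d : GG k Ω → ℕ} (hd : IsDeg e d)
    {deg : Place k (RatFunc k) → ℕ} (hdeg : IsPDeg Ω deg) :
    d (ph Ω (placeInfty k)) ≡ 1 [MOD 2 ^ e] := by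
  obtain ⟨ζ, h1, h3⟩ := exists_gen (k := k) (Ω := Ω) h2 e
  apply h3
  rw [← hd _ ζ h1, hdeg _ ζ ⟨2 ^ e, by positivity, h1⟩, deg_infty h2 hdeg]

/-- RecDeg: reciprocity -/
theorem rec_deg {nm : Place k (RatFunc k) → MuT Ω →+ MuT Ω} (hnm : IsNm nm)
    {deg : Place k (RatFunc k) → ℕ} (hdeg : IsPDeg Ω deg) {dg : ℕ → GG k Ω → ℕ}
    (hdg : Pool.Agent.SmH.IsDeg dg) (hact : ∀ m, IsDeg m (dg m))
    (F : GG k Ω → GG k Ω → MuT Ω) (c B : Place k (RatFunc k) → GG k Ω → MuT Ω)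
    (hF : ∃ N ∈ NN (RatFunc k) Ω, ∀ s t, ∀ n ∈ N, ∀ m ∈ N, F (s * n) (t * m) = F s t)
    (hFc : ∀ s t w, F s t + F (s * t) w = s • F t w + F s (t * w))
    (hcT : ∀ v, TFA (dv Ω v) (c v)) (hBT : ∀ v, TFA (dv Ω v) (B v))
    (hcc : ∀ v, ∀ s ∈ dv Ω v, ∀ t ∈ dv Ω v, c v (s * t) = c v s + s • c v t)
    (hFB : ∀ v, ∀ s ∈ dv Ω v, ∀ t ∈ dv Ω v,
      F s t = Pool.Agent.SmH.ds dg s (s • c v t) + (B v s + s • B v t - B v (s * t)))
    (hfin : {v | c v (sg Ω v) ≠ 0}.Finite) :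
    ∑ᶠ v, deg v • nm v (c v (sg Ω v)) = 0 := by
  classical
  have hgal : IsGalois (RatFunc k) Ω := IsSepClosure.isGalois
  have hsc : IsSepClosed Ω := IsSepClosure.sep_closed (RatFunc k)
  have hsgD : ∀ v, sg Ω v ∈ dv Ω v := fun v => sg_mem h2 v
  obtain ⟨eF, heF⟩ := exp_two hF
  choose ev hev using fun v => (hcT v).exp
  obtain ⟨eB, heB⟩ := (hBT (placeInfty k)).exp
  obtain ⟨e, he1, he2, he3, he4⟩ : ∃ e : ℕ, eF ≤ e ∧ (∀ v, c v (sg Ω v) ≠ 0 → ev v ≤ e) ∧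
      ev (placeInfty k) ≤ e ∧ eB ≤ e := by
    refine ⟨eF + hfin.toFinset.sup ev + ev (placeInfty k) + eB, by omega, fun v hv => ?_,
      by omega, by omega⟩
    have h1 : ev v ≤ hfin.toFinset.sup ev := Finset.le_sup (hfin.mem_toFinset.2 hv)
    omega
  have hce : ∀ v, (2 : ℕ) ^ e • c v (sg Ω v) = 0 := by
    intro v
    by_cases hv : c v (sg Ω v) = 0
    · rw [hv, nsmul_zero]
    · exact exp_le (he2 v hv) (hev v _ (hsgD v))
  obtain ⟨f, hf0, hf⟩ := exists_elt (Ω := Ω) h2 e (fun v => ofM (c v (sg Ω v)))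
    (fun v => ofM_pow (hce v)) (hfin.subset fun v hv h => hv (by
      change ofM (c v (sg Ω v)) = 1
      rw [h, ofM_zero]))
  -- the global cocycle `F - deg ∪ κ_f`
  have hFe : ∀ s t, (2 : ℕ) ^ e • F s t = 0 := fun s t => exp_le he1 (heF s t)
  have hκ := kc_mu (Ω := Ω) h2 e hf0
  have hsκ : ∀ s t : GG k Ω, (s • kc Ω e f t) ^ (2 ^ e) = 1 := fun s t => by
    rw [← smul_pow', hκ, smul_one]
  set c' : GG k Ω → GG k Ω → Ωˣ := fun s t =>
    ofM (F s t) * ((s • kc Ω e f t) ^ dg e s)⁻¹ with hc'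
  have hc'M : ∀ s t, c' s t ^ (2 ^ e) = 1 := fun s t => by
    rw [hc']
    change (ofM (F s t) * ((s • kc Ω e f t) ^ dg e s)⁻¹) ^ (2 ^ e) = 1
    rw [mul_pow, ofM_pow (hFe s t), one_mul, inv_pow, ← pow_mul, mul_comm (dg e s), pow_mul, hsκ,
      one_pow, inv_one]
  have hc'T : TF2U c' := by
    obtain ⟨N1, hN1, h1⟩ := hF
    obtain ⟨N2, hN2, h3, h4⟩ := exists_NN_kum (Ω := Ω) h2 e f hf0
    have hN3 := Hn_mem (k := k) (Ω := Ω) h2 e
    refine ⟨N1 ⊓ (N2 ⊓ Hn k Ω (2 ^ e)), inf_mem_NN hN1 (inf_mem_NN hN2 hN3),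
      fun s t n hn m hm => ?_⟩
    change ofM (F (s * n) (t * m)) * (((s * n) • kc Ω e f (t * m)) ^ dg e (s * n))⁻¹
      = ofM (F s t) * ((s • kc Ω e f t) ^ dg e s)⁻¹
    rw [h1 s t n hn.1 m hm.1, h4 m hm.2.1, mul_smul, h3 n hn.2.1 _ (hκ t),
      pow_modEq (hsκ s t) ((hact e).Hn h2 hn.2.2)]
  have hc'C : CocU c' := by
    intro s t w
    have h1 := cup_coc (k := k) h2 (hdg.mul e) hκ (kc_coc e f) s t w
    have h3 : ofM (F s t) * ofM (F (s * t) w) = s • ofM (F t w) * ofM (F s (t * w)) := by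
      rw [← ofM_add, ← ofM_smul, ← ofM_add, hFc]
    change ofM (F s t) * ((s • kc Ω e f t) ^ dg e s)⁻¹
        * (ofM (F (s * t) w) * (((s * t) • kc Ω e f w) ^ dg e (s * t))⁻¹)
      = s • (ofM (F t w) * ((t • kc Ω e f w) ^ dg e t)⁻¹)
        * (ofM (F s (t * w)) * ((s • kc Ω e f (t * w)) ^ dg e s)⁻¹)
    rw [mul_mul_mul_comm, ← mul_inv, h1, h3, smul_mul', smul_inv', mul_inv, mul_mul_mul_comm]
  -- local cocycles
  have hFs : ∀ v, ∀ e', ev v ≤ e' → ∀ s ∈ dv Ω v, ∀ t ∈ dv Ω v,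
      ofM (F s t) = (s • ofM (c v t)) ^ dg e' s
        * (ofM (B v s) * s • ofM (B v t) * (ofM (B v (s * t)))⁻¹) := by
    intro v e' he' s hs t ht
    have h1 : (2 : ℕ) ^ e' • (s • c v t) = 0 := by
      rw [smul_comm, exp_le he' (hev v t ht), smul_zero]
    rw [hFB v s hs t ht, Pool.Agent.SmH.ds_eq hdg s h1, ofM_add, ofM_nsmul, ofM_smul, ofM_sub,
      ofM_add, ofM_smul]
  have hε : ∀ v, ∀ e', ev v ≤ e' → e ≤ e' → Coc1 e' (dv Ω v)
      (fun s => if s ∈ dv Ω v then ofM (c v s) * (kc Ω e f s)⁻¹ else 1) := by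
    intro v e' he' hee
    refine ⟨fun s => ?_, ?_, fun s hs t ht => ?_⟩
    · by_cases hs : s ∈ dv Ω v
      · rw [if_pos hs, mul_pow, ofM_pow (exp_le he' (hev v s hs)), one_mul, inv_pow]
        obtain ⟨r, rfl⟩ := Nat.exists_eq_add_of_le hee
        rw [pow_add, pow_mul, hκ, one_pow, inv_one]
      · rw [if_neg hs, one_pow]
    · refine LCOn.congr ((((hcT v).lc.comp ofM).prod
        (lcOn_kumU (dv Ω v) (2 ^ e) (algebraMap (RatFunc k) Ω f))).comp
          fun x : Ωˣ × Ωˣ => x.1 * x.2⁻¹) fun s hs => ?_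
      rw [if_pos hs]
      rfl
    · rw [if_pos hs, if_pos ht, if_pos ((dv Ω v).mul_mem hs ht), hcc v s hs t ht, ofM_add,
        ofM_smul, kc_coc, smul_mul', smul_inv', mul_inv]
      exact mul_mul_mul_comm _ _ _ _
  -- the Hasse principle
  obtain ⟨b, hbM, ⟨Nb, hNb, hbN⟩, hb⟩ := hasse_mu h2 e c' hc'M hc'T hc'C (by
    intro v hv
    set e' : ℕ := e + ev v with he'
    have h1 := hε v e' (by omega) (by omega)
    have h3 : (fun s => if s ∈ dv Ω v then ofM (c v s) * (kc Ω e f s)⁻¹ else 1) (sg Ω v) = 1 := by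
      change (if sg Ω v ∈ dv Ω v then ofM (c v (sg Ω v)) * (kc Ω e f (sg Ω v))⁻¹ else 1) = 1
      rw [if_pos (hsgD v), kc_sg, hf v hv, mul_inv_cancel]
    obtain ⟨B1, hB1, hB1s⟩ := unr_split h2 (hact e') h1 h3
    refine ⟨fun s => B1 s * ofM (B v s), (hB1.prod ((hBT v).lc.comp ofM)).comp
      fun x : Ωˣ × Ωˣ => x.1 * x.2, fun s hs t ht => ?_⟩
    have h4 := hB1s s hs t ht
    change (s • (if t ∈ dv Ω v then ofM (c v t) * (kc Ω e f t)⁻¹ else 1)) ^ dg e' s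
      = B1 s * s • B1 t * (B1 (s * t))⁻¹ at h4
    rw [if_pos ht, smul_mul', smul_inv', mul_pow, inv_pow] at h4
    have h5 : (s • kc Ω e f t) ^ dg e' s = (s • kc Ω e f t) ^ dg e s :=
      pow_modEq (hsκ s t) (hdg.le (by omega) s)
    rw [h5] at h4
    change ofM (F s t) * ((s • kc Ω e f t) ^ dg e s)⁻¹
      = B1 s * ofM (B v s) * s • (B1 t * ofM (B v t)) * (B1 (s * t) * ofM (B v (s * t)))⁻¹
    rw [hFs v e' (by omega) s hs t ht, mul_right_comm, h4, smul_mul', mul_inv]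
    generalize B1 s = a1
    generalize s • B1 t = a2
    generalize (B1 (s * t))⁻¹ = a3
    generalize ofM (B v s) = b1
    generalize s • ofM (B v t) = b2
    generalize (ofM (B v (s * t)))⁻¹ = b3
    rw [mul_mul_mul_comm, mul_mul_mul_comm a1 a2])
  -- infinity
  have hinf : kv Ω e f (placeInfty k) = ofM (c (placeInfty k) (sg Ω (placeInfty k))) := by
    set v : Place k (RatFunc k) := placeInfty k with hv
    have h1 := hε v e he3 le_rfl
    have hBM : ∀ s, (if s ∈ dv Ω v then b s * (ofM (B v s))⁻¹ else 1) ^ (2 ^ e) = (1 : Ωˣ) := by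
      intro s
      by_cases hs : s ∈ dv Ω v
      · rw [if_pos hs, mul_pow, hbM, one_mul, inv_pow, ofM_pow (exp_le he4 (heB s hs)), inv_one]
      · rw [if_neg hs, one_pow]
    have hBl : LCOn (dv Ω v) (fun s => if s ∈ dv Ω v then b s * (ofM (B v s))⁻¹ else 1) := by
      have hbl : LCOn (dv Ω v) b := ⟨Nb, NN.normal hNb, NN.isOpen hNb,
        fun s _ n hn _ => hbN s n hn⟩
      refine LCOn.congr ((hbl.prod ((hBT v).lc.comp ofM)).comp
        fun x : Ωˣ × Ωˣ => x.1 * x.2⁻¹) fun s hs => ?_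
      rw [if_pos hs]
    have h3 := split_one h2 (hact e) h1 hBM hBl (fun s hs t ht => by
      change (s • (if t ∈ dv Ω v then ofM (c v t) * (kc Ω e f t)⁻¹ else 1)) ^ dg e s
        = (if s ∈ dv Ω v then b s * (ofM (B v s))⁻¹ else 1)
          * s • (if t ∈ dv Ω v then b t * (ofM (B v t))⁻¹ else 1)
          * (if s * t ∈ dv Ω v then b (s * t) * (ofM (B v (s * t)))⁻¹ else 1)⁻¹
      have h4 := hb s t
      change ofM (F s t) * ((s • kc Ω e f t) ^ dg e s)⁻¹ = b s * s • b t * (b (s * t))⁻¹ at h4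
      rw [hFs v e he3 s hs t ht, mul_right_comm] at h4
      rw [if_pos hs, if_pos ht, if_pos ht, if_pos ((dv Ω v).mul_mem hs ht), smul_mul', smul_inv',
        mul_pow, inv_pow, smul_mul', smul_inv', mul_inv, inv_inv, eq_mul_inv_of_mul_eq h4, mul_inv, mul_inv,
        inv_inv]
      generalize b s = a1
      generalize s • b t = a2
      generalize (b (s * t))⁻¹ = a3
      generalize (ofM (B v s))⁻¹ = b1
      generalize (s • ofM (B v t))⁻¹ = b2
      generalize ofM (B v (s * t)) = b3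
      rw [mul_mul_mul_comm, mul_mul_mul_comm a1 a2])
    change (if sg Ω v ∈ dv Ω v then ofM (c v (sg Ω v)) * (kc Ω e f (sg Ω v))⁻¹ else 1)
      ^ dg e (ph Ω v) = 1 at h3
    rw [if_pos (hsgD v), kc_sg] at h3
    have h4 : (ofM (c v (sg Ω v)) * (kv Ω e f v)⁻¹) ^ (2 ^ e) = 1 := by
      rw [mul_pow, ofM_pow (hce v), one_mul, inv_pow, kv_pow h2 e hf0, inv_one]
    rw [pow_modEq h4 (dg_infty h2 (hact e) hdeg), pow_one] at h3
    exact (mul_inv_eq_one.1 h3).symm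
  -- conclusion
  have key : ∀ v, c v (sg Ω v) = toM (kv Ω e f v) := by
    intro v
    by_cases hv : v = placeInfty k
    · rw [hv, hinf, toM_ofM]
    · rw [hf v hv, toM_ofM]
  have e1 : ∀ v, deg v • nm v (c v (sg Ω v)) = deg v • nm v (toM (kv Ω e f v)) := fun v => by
    rw [key v]
  rw [finsum_congr e1]
  exact prod_kum h2 hnm hdeg e f hf0

end

end Pool.Agent.Ht
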